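import Mathlib

set_option autoImplicit false

/-!
# HSB (MP_7e1f1a_co): the polynomial argument (Kurlberg's theorem on Cohn's problem, in
characteristic `p`)
-/

namespace Pool.Agent.HSB

open Polynomial Finset

section

variable {p : ℕ} [hp : Fact p.Prime] {F : Type} [Field F] (φ : ZMod p →+* F)

lemma sum_pow_zero {i : ℕ} (hi : i < p - 1) : ∑ x : ZMod p, φ x ^ i = 0 := by
  have h := FiniteField.sum_pow_lt_card_sub_one (K := ZMod p) i (by rwa [ZMod.card])
  have h2 := congrArg φ h
  rw [map_sum, map_zero] at h2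
  simpa using h2

lemma sum_pow_top : ∑ x : ZMod p, φ x ^ (p - 1) = -1 := by
  have h1 : ∀ x : ZMod p, φ x ^ (p - 1) = 1 - (if x = 0 then 1 else 0) := by
    intro x
    split_ifs with h
    · rw [h, map_zero, zero_pow (by have := hp.out.two_le; omega), sub_self]
    · rw [← map_pow, ZMod.pow_card_sub_one_eq_one h, map_one, sub_zero]
  rw [sum_congr rfl fun x _ => h1 x, sum_sub_distrib, sum_ite_eq' univ (0 : ZMod p)]
  have h2 : (p : F) = 0 := by
    have := congrArg φ (ZMod.natCast_self p)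
    rwa [map_natCast, map_zero] at this
  simp [ZMod.card, h2]

lemma sum_eval {Q : F[X]} (hQ : Q.natDegree ≤ p - 1) :
    ∑ x : ZMod p, Q.eval (φ x) = -Q.coeff (p - 1) := by
  have h2 := hp.out.two_le
  have h1 : ∀ x : ZMod p, Q.eval (φ x) = ∑ i ∈ range (p - 1 + 1), Q.coeff i * φ x ^ i :=
    fun x => eval_eq_sum_range' (by omega) _
  rw [sum_congr rfl fun x _ => h1 x, sum_comm, sum_range_succ]
  have h3 : ∑ i ∈ range (p - 1), ∑ x : ZMod p, Q.coeff i * φ x ^ i = 0 := by
    refine sum_eq_zero fun i hi => ?_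
    rw [← mul_sum, sum_pow_zero φ (mem_range.1 hi), mul_zero]
  rw [h3, zero_add, ← mul_sum, sum_pow_top, mul_neg, mul_one]

include φ in
lemma choose_ne {n s : ℕ} (hn : n < p) (hs : s ≤ n) : ((n.choose s : ℕ) : F) ≠ 0 := by
  intro h
  have h1 : ((n.choose s : ℕ) : ZMod p) = 0 := by
    apply φ.injective
    rwa [map_natCast, map_zero]
  have h2 : p ∣ n.choose s := (ZMod.natCast_eq_zero_iff _ _).1 h1
  have h3 : n.choose s ∣ n.factorial := by
    rw [← Nat.choose_mul_factorial_mul_factorial hs, mul_assoc]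
    exact Dvd.intro _ rfl
  have h4 := (hp.out.dvd_factorial).1 (h2.trans h3)
  omega

/-- Kurlberg's theorem: a function with the autocorrelation of a character is a character -/
theorem poly_mono (f : ZMod p → F) (h0 : f 0 = 0) (hne : ∀ x, x ≠ 0 → f x ≠ 0)
    (hc : ∀ a, a ≠ 0 → ∑ x : ZMod p, f x * (f (x + a))⁻¹ = -1) :
    ∃ (m : ℕ) (c : F), ∀ x, x ≠ 0 → f x = c * φ x ^ m := by
  classical
  have hp2 := hp.out.two_le
  have hinj : Function.Injective φ := φ.injective
  have hcard : (univ : Finset (ZMod p)).card = p := by rw [card_univ, ZMod.card]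
  have hint : ∀ g : ZMod p → F, ∃ P : F[X], P.natDegree < p ∧ ∀ x, P.eval (φ x) = g x := by
    intro g
    refine ⟨Lagrange.interpolate univ φ g, ?_, fun x => ?_⟩
    · have h1 := Lagrange.degree_interpolate_lt (s := univ) (v := φ) g (hinj.injOn)
      rw [hcard] at h1
      by_cases hz : Lagrange.interpolate univ φ g = 0
      · rw [hz, natDegree_zero]; omega
      · exact (natDegree_lt_iff_degree_lt hz).2 h1
    · exact Lagrange.eval_interpolate_at_node g hinj.injOn (mem_univ x)
  have hp0 : (p : F) = 0 := by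
    have := congrArg φ (ZMod.natCast_self p)
    rwa [map_natCast, map_zero] at this
  have hc' : ∀ a, ∑ x : ZMod p, f x * (f (x + a))⁻¹ = -1 := by
    intro a
    by_cases ha : a = 0
    · subst ha
      have h1 : ∀ x : ZMod p, f x * (f (x + 0))⁻¹ = 1 - (if x = 0 then 1 else 0) := by
        intro x
        rw [add_zero]
        split_ifs with h
        · rw [h, h0, zero_mul, sub_self]
        · rw [mul_inv_cancel₀ (hne x h), sub_zero]
      rw [sum_congr rfl fun x _ => h1 x, sum_sub_distrib, sum_ite_eq' univ (0 : ZMod p)]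
      simp [ZMod.card, hp0]
    · exact hc a ha
  obtain ⟨P, hPd, hP⟩ := hint f
  obtain ⟨G, hGd, hG⟩ := hint fun x => (f x)⁻¹
  have h10 : (1 : ZMod p) ≠ 0 := one_ne_zero
  have hP0 : P ≠ 0 := by
    rintro rfl
    refine hne 1 h10 ?_
    rw [← hP, eval_zero]
  have hG0 : G ≠ 0 := by
    rintro rfl
    refine inv_ne_zero (hne 1 h10) ?_
    rw [← hG, eval_zero]
  have hdeg : P.natDegree + G.natDegree ≤ p - 1 := by
    by_contra hcon
    push Not at hcon
    obtain ⟨s, hs⟩ : ∃ s, P.natDegree + G.natDegree = p - 1 + s ∧ 1 ≤ s :=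
      ⟨P.natDegree + G.natDegree - (p - 1), by omega, by omega⟩
    obtain ⟨hs, hs1⟩ := hs
    have hsn : s ≤ G.natDegree := by omega
    set R : F[X] := ∑ x : ZMod p, C (f x) * taylor (φ x) G with hR
    have hRd : R.natDegree < p := by
      refine lt_of_le_of_lt (natDegree_sum_le_of_forall_le _ _ fun x _ => ?_) hGd
      exact (natDegree_C_mul_le _ _).trans (natDegree_taylor _ _).le
    have hRe : ∀ a : ZMod p, R.eval (φ a) = (C (-1 : F)).eval (φ a) := by
      intro a
      rw [hR, eval_finsetSum, eval_C, ← hc' a]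
      refine sum_congr rfl fun x _ => ?_
      rw [eval_mul, eval_C, taylor_eval, ← map_add, hG, add_comm a x]
    have hRC : R = C (-1 : F) := by
      refine eq_of_natDegree_lt_card_of_eval_eq _ _ hinj hRe ?_
      rw [natDegree_C, ZMod.card]
      exact max_lt hRd (by omega)
    have h1 : R.coeff s = 0 := by
      rw [hRC, coeff_C, if_neg (by omega)]
    have h2 : R.coeff s = ∑ x : ZMod p, (P * hasseDeriv s G).eval (φ x) := by
      rw [hR, finsetSum_coeff]
      refine sum_congr rfl fun x _ => ?_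
      rw [coeff_C_mul, taylor_coeff, eval_mul, hP]
    have h3 : (hasseDeriv s G).natDegree ≤ G.natDegree - s := natDegree_hasseDeriv_le _ _
    have h4 : (P * hasseDeriv s G).natDegree ≤ p - 1 :=
      natDegree_mul_le.trans (by omega)
    rw [h2, sum_eval φ h4, show p - 1 = P.natDegree + (G.natDegree - s) by omega,
      coeff_mul_add_eq_of_natDegree_le le_rfl h3, hasseDeriv_coeff,
      show G.natDegree - s + s = G.natDegree by omega, neg_eq_zero] at h1
    rcases mul_eq_zero.1 h1 with h5 | h5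
    · exact hP0 (leadingCoeff_eq_zero.1 h5)
    · rcases mul_eq_zero.1 h5 with h6 | h6
      · exact choose_ne φ hGd hsn h6
      · exact hG0 (leadingCoeff_eq_zero.1 h6)
  have hPG : P * G = X ^ (p - 1) := by
    refine eq_of_natDegree_lt_card_of_eval_eq _ _ hinj (fun x => ?_) ?_
    · rw [eval_mul, hP, hG, eval_pow, eval_X]
      by_cases hx : x = 0
      · rw [hx, h0, zero_mul, map_zero, zero_pow (by omega)]
      · rw [mul_inv_cancel₀ (hne x hx), ← map_pow, ZMod.pow_card_sub_one_eq_one hx, map_one]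
    · rw [natDegree_X_pow, ZMod.card]
      exact max_lt (lt_of_le_of_lt natDegree_mul_le (by omega)) (by omega)
  obtain ⟨m, -, hm⟩ := (dvd_prime_pow (prime_X (R := F)) (p - 1)).1 (Dvd.intro G hPG)
  obtain ⟨u, hu⟩ := hm.symm
  obtain ⟨c, -, hcu⟩ := Polynomial.isUnit_iff.1 u.isUnit
  refine ⟨m, c, fun x _ => ?_⟩
  rw [← hP, ← hu, ← hcu, eval_mul, eval_pow, eval_X, eval_C, mul_comm]

include φ in
/-- the same as a multiplicative statement -/
theorem poly_mul (f : ZMod p → F) (h0 : f 0 = 0) (hne : ∀ x, x ≠ 0 → f x ≠ 0)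
    (hc : ∀ a, a ≠ 0 → ∑ x : ZMod p, f x * (f (x + a))⁻¹ = -1) (x y : ZMod p) (hx : x ≠ 0)
    (hy : y ≠ 0) : f (x * y) * f 1 = f x * f y := by
  obtain ⟨m, c, h⟩ := poly_mono φ f h0 hne hc
  rw [h _ (mul_ne_zero hx hy), h _ hx, h _ hy, h 1 one_ne_zero]
  rw [map_mul, map_one, one_pow, mul_pow]
  ring

end

end Pool.Agent.HSB
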