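import Pool.Agent.HSB.Dif
import Pool.Agent.HSB.Poly

set_option autoImplicit false

/-!
# HSB (MP_7e1f1a_co): the difference set is multiplicative
-/

namespace Pool.Agent.HSB

open Finset Classical

universe u v w x

variable {t : ℕ} {B : Type w} [CommGroup B] [Fintype B] {α : B}
  {lam : B → ZMod (2 * t + 1)} {D : B → Prop}

namespace DD

variable (h : DD t α lam D) [hp : Fact (2 * t + 1).Prime]
include h

lemma l1 : lam 1 = 0 := by
  have := h.lmul 1 1
  rw [mul_one] at this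
  linear_combination -this

lemma linv (g : B) : lam g⁻¹ = -lam g := by
  have := h.lmul g g⁻¹
  rw [mul_inv_cancel, h.l1] at this
  linear_combination -this

lemma lpow (g : B) (i : ℕ) : lam (g ^ i) = i * lam g := by
  induction i with
  | zero => rw [pow_zero, h.l1, Nat.cast_zero, zero_mul]
  | succ i ih => rw [pow_succ, h.lmul, ih]; push_cast; ring

/-- a power of `α` with `lam = 0` is trivial -/
lemma pow_one {i : ℕ} (hi : lam (α ^ i) = 0) : α ^ i = 1 := by
  rw [h.lpow] at hi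
  have h1 : ((i : ℕ) : ZMod (2 * t + 1)) = 0 := (mul_eq_zero.1 hi).resolve_right h.lα
  obtain ⟨j, rfl⟩ := (ZMod.natCast_eq_zero_iff _ _).1 h1
  rw [pow_mul, h.hα, one_pow]

lemma ex_pow (a : ZMod (2 * t + 1)) : ∃ i : ℕ, lam (α ^ i) = a := by
  refine ⟨(a / lam α).val, ?_⟩
  rw [h.lpow, ZMod.natCast_zmod_val, div_mul_cancel₀ _ h.lα]

/-- the element of the difference set with given `lam` -/
lemma ex_d : ∃ d : ZMod (2 * t + 1) → B, ∀ x, x ≠ 0 → D (d x) ∧ lam (d x) = x := by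
  have : ∀ x, ∃ d, x ≠ 0 → D d ∧ lam d = x := by
    intro x
    by_cases hx : x = 0
    · exact ⟨1, fun h1 => absurd hx h1⟩
    · obtain ⟨d, hd⟩ := h.d2 x hx
      exact ⟨d, fun _ => hd⟩
  choose d hd using this
  exact ⟨d, hd⟩

/-- the autocorrelation -/
lemma corr {F : Type} [Field F] {d : ZMod (2 * t + 1) → B}
    (hd : ∀ x, x ≠ 0 → D (d x) ∧ lam (d x) = x) (χ : B →* Fˣ) (hχ : χ α = 1)
    (hχ1 : ∃ g, χ g ≠ 1) {a : ZMod (2 * t + 1)} (ha : a ≠ 0) :
    ∑ x : ZMod (2 * t + 1), (if x = 0 then 0 else ((χ (d x) : Fˣ) : F)) *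
      (if x + a = 0 then 0 else ((χ (d (x + a)) : Fˣ) : F))⁻¹ = -1 := by
  have hpw : ∀ i : ℕ, χ (α ^ i) = 1 := fun i => by rw [map_pow, hχ, one_pow]
  -- the sum over pairs
  have e1 : ∑ x : ZMod (2 * t + 1), (if x = 0 then 0 else ((χ (d x) : Fˣ) : F)) *
      (if x + a = 0 then 0 else ((χ (d (x + a)) : Fˣ) : F))⁻¹ =
      ∑ q ∈ (univ : Finset (B × B)).filter (fun q => lam q.1 = a ∧ D q.2 ∧ D (q.2 * q.1)),
        (((χ q.1)⁻¹ : Fˣ) : F) := by
    have e0 : ∑ x : ZMod (2 * t + 1), (if x = 0 then 0 else ((χ (d x) : Fˣ) : F)) *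
        (if x + a = 0 then 0 else ((χ (d (x + a)) : Fˣ) : F))⁻¹ =
        ∑ x ∈ (univ : Finset (ZMod (2 * t + 1))).filter (fun x => x ≠ 0 ∧ x + a ≠ 0),
          ((χ (d x) : Fˣ) : F) * (((χ (d (x + a)))⁻¹ : Fˣ) : F) := by
      rw [sum_filter]
      refine sum_congr rfl fun x _ => ?_
      by_cases h1 : x = 0
      · simp [h1]
      · by_cases h2 : x + a = 0
        · simp [h2]
        · simp [h1, h2]
    rw [e0]
    refine sum_nbij' (fun x => ((d x)⁻¹ * d (x + a), d x)) (fun q => lam q.2) ?_ ?_ ?_ ?_ ?_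
    · intro x hx
      obtain ⟨h1, h2⟩ := (mem_filter.1 hx).2
      refine mem_filter.2 ⟨mem_univ _, ?_, (hd x h1).1, ?_⟩
      · simp only
        rw [h.lmul, h.linv, (hd x h1).2, (hd _ h2).2]
        ring
      · simp only
        rw [mul_inv_cancel_left]
        exact (hd _ h2).1
    · rintro ⟨b, c⟩ hq
      obtain ⟨h1, h2, h3⟩ := (mem_filter.1 hq).2
      simp only at h1 h2 h3
      refine mem_filter.2 ⟨mem_univ _, h.d0 _ h2, ?_⟩
      simp only
      rw [← h1, ← h.lmul]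
      exact h.d0 _ h3
    · intro x hx
      obtain ⟨h1, h2⟩ := (mem_filter.1 hx).2
      exact (hd x h1).2
    · rintro ⟨b, c⟩ hq
      obtain ⟨h1, h2, h3⟩ := (mem_filter.1 hq).2
      simp only at h1 h2 h3 ⊢
      have f1 : d (lam c) = c := h.d1 _ _ (hd _ (h.d0 _ h2)).1 h2 (hd _ (h.d0 _ h2)).2
      have h4 : lam c + a ≠ 0 := by
        rw [← h1, ← h.lmul]
        exact h.d0 _ h3
      have f2 : d (lam c + a) = c * b := by
        refine h.d1 _ _ (hd _ h4).1 h3 ?_
        rw [(hd _ h4).2, h.lmul, h1]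
      rw [f1, f2, inv_mul_cancel_left]
    · intro x hx
      simp only
      rw [← Units.val_mul, map_mul, map_inv, mul_inv_rev, inv_inv, mul_comm]
  -- the sum over `b`
  have e2 : ∑ q ∈ (univ : Finset (B × B)).filter (fun q => lam q.1 = a ∧ D q.2 ∧ D (q.2 * q.1)),
        (((χ q.1)⁻¹ : Fˣ) : F) =
      ∑ b ∈ univ.filter (fun b => lam b = a),
        ((univ.filter fun c => D c ∧ D (c * b)).card : F) * (((χ b)⁻¹ : Fˣ) : F) := by
    rw [sum_filter, Fintype.sum_prod_type, sum_filter]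
    refine sum_congr rfl fun b _ => ?_
    by_cases hb : lam b = a
    · rw [if_pos hb, ← sum_filter]
      simp only [hb, true_and]
      rw [sum_const, nsmul_eq_mul]
    · rw [if_neg hb]
      refine sum_eq_zero fun c _ => ?_
      rw [if_neg]
      exact fun h1 => hb h1.1
  have e3 : ∑ b ∈ univ.filter (fun b => lam b = a), (((χ b)⁻¹ : Fˣ) : F) = 0 := by
    obtain ⟨s, hs, hs1⟩ : ∃ s, lam s = 0 ∧ χ s ≠ 1 := by
      obtain ⟨g, hg⟩ := hχ1
      obtain ⟨i, hi⟩ := h.ex_pow (-lam g)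
      refine ⟨g * α ^ i, by rw [h.lmul, hi, add_neg_cancel], ?_⟩
      rwa [map_mul, hpw, mul_one]
    have f1 : ∑ b ∈ univ.filter (fun b => lam b = a), (((χ b)⁻¹ : Fˣ) : F) =
        ∑ b ∈ univ.filter (fun b => lam b = a), (((χ b)⁻¹ : Fˣ) : F) * (((χ s)⁻¹ : Fˣ) : F) := by
      refine sum_nbij' (fun b => b * s⁻¹) (fun b => b * s) ?_ ?_ ?_ ?_ ?_
      · intro b hb
        have := (mem_filter.1 hb).2
        exact mem_filter.2 ⟨mem_univ _, by rw [h.lmul, h.linv, hs, this]; ring⟩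
      · intro b hb
        have := (mem_filter.1 hb).2
        exact mem_filter.2 ⟨mem_univ _, by rw [h.lmul, hs, this]; ring⟩
      · intro b _
        exact inv_mul_cancel_right b s
      · intro b _
        exact mul_inv_cancel_right b s
      · intro b _
        rw [← Units.val_mul, map_mul, map_inv, mul_inv_rev, inv_inv, mul_comm (χ s),
          mul_inv_cancel_right]
    rw [← sum_mul] at f1
    have f2 : (((χ s)⁻¹ : Fˣ) : F) ≠ 1 := by
      intro h1
      apply hs1
      have : (χ s)⁻¹ = 1 := Units.ext h1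
      rwa [inv_eq_one] at this
    have f3 : (∑ b ∈ univ.filter (fun b => lam b = a), (((χ b)⁻¹ : Fˣ) : F)) *
        ((((χ s)⁻¹ : Fˣ) : F) - 1) = 0 := by
      linear_combination -f1
    exact (mul_eq_zero.1 f3).resolve_right (sub_ne_zero.2 f2)
  obtain ⟨i, hi⟩ := h.ex_pow a
  have e4 : ∀ b ∈ univ.filter (fun b => lam b = a),
      ((univ.filter fun c => D c ∧ D (c * b)).card : F) * (((χ b)⁻¹ : Fˣ) : F) =
        2 * (((χ b)⁻¹ : Fˣ) : F) - (if b = α ^ i then 1 else 0) := by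
    intro b hb
    have hb2 := (mem_filter.1 hb).2
    have hb0 : lam b ≠ 0 := by rw [hb2]; exact ha
    by_cases h1 : ∃ j : ℕ, b = α ^ j
    · have h2 : b = α ^ i := by
        obtain ⟨j, rfl⟩ := h1
        have hcop : ∃ l : ℕ, α ^ l = α ^ j * (α ^ i)⁻¹ := by
          have hq : (α ^ i)⁻¹ = α ^ ((2 * t + 1) * i - i) := by
            rw [inv_eq_iff_mul_eq_one, ← pow_add]
            have h9 : i + ((2 * t + 1) * i - i) = (2 * t + 1) * i :=
              Nat.add_sub_cancel' (Nat.le_mul_of_pos_left i (by omega))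
            rw [h9, pow_mul, h.hα, _root_.one_pow]
          exact ⟨j + ((2 * t + 1) * i - i), by rw [pow_add, hq]⟩
        obtain ⟨l, hl⟩ := hcop
        have h3 : lam (α ^ l) = 0 := by
          rw [hl, h.lmul, h.linv, hi, hb2, add_neg_cancel]
        have h4 := h.pow_one h3
        rw [hl, mul_inv_eq_one] at h4
        exact h4
      rw [h.r1 b hb0 h1, if_pos h2, h2, hpw]
      simp
      norm_num
    · have h2 : b ≠ α ^ i := fun h3 => h1 ⟨i, h3⟩
      push Not at h1
      rw [h.r2 b hb0 h1, if_neg h2]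
      push_cast
      ring
  rw [e1, e2, sum_congr rfl e4, sum_sub_distrib, ← mul_sum, e3, mul_zero, zero_sub, neg_inj,
    sum_ite_eq', if_pos (show α ^ i ∈ univ.filter (fun b => lam b = a) from
      mem_filter.2 ⟨mem_univ _, hi⟩)]

end DD

end Pool.Agent.HSB
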