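import Pool.Agent.HSB.Cor

set_option autoImplicit false

/-!
# HSB (MP_7e1f1a_co): coordinates
-/

namespace Pool.Agent.HSB

open Finset Classical

universe u v w x

variable {t : ℕ} {B : Type w} [CommGroup B] [Fintype B] {α : B}
  {lam : B → ZMod (2 * t + 1)} {D : B → Prop}

namespace DD

variable (h : DD t α lam D) [hp : Fact (2 * t + 1).Prime]
include h

/-- the coset of `g` -/
abbrev qq (α g : B) : B ⧸ Subgroup.zpowers α := QuotientGroup.mk g

omit h hp in
lemma qq_eq {g k : B} : qq α g = qq α k ↔ ∃ i : ℕ, k = g * α ^ i := by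
  rw [QuotientGroup.eq, ← mem_powers_iff_mem_zpowers, Submonoid.mem_powers_iff]
  constructor
  · rintro ⟨i, hi⟩
    exact ⟨i, by rw [hi, mul_inv_cancel_left]⟩
  · rintro ⟨i, rfl⟩
    exact ⟨i, by rw [inv_mul_cancel_left]⟩

omit h hp in
lemma qq_mul (g k : B) : qq α (g * k) = qq α g * qq α k := rfl

lemma one_ne : α ≠ 1 := by
  rintro rfl
  exact h.lα h.l1

lemma cardQ : Nat.card (B ⧸ Subgroup.zpowers α) = t := by
  have h1 := Subgroup.card_eq_card_quotient_mul_card_subgroup (Subgroup.zpowers α)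
  rw [Nat.card_zpowers, orderOf_eq_prime h.hα h.one_ne, Nat.card_eq_fintype_card, h.card,
    mul_comm] at h1
  exact (Nat.eq_of_mul_eq_mul_right (by omega) h1).symm

lemma kmul {d : ZMod (2 * t + 1) → B} (hd : ∀ x, x ≠ 0 → D (d x) ∧ lam (d x) = x)
    {x y : ZMod (2 * t + 1)} (hx : x ≠ 0) (hy : y ≠ 0) :
    qq α (d (x * y)) * qq α (d 1) = qq α (d x) * qq α (d y) := by
  set F := AlgebraicClosure (ZMod (2 * t + 1)) with hF
  set φ : ZMod (2 * t + 1) →+* F := algebraMap _ _
  have hχ : ∀ χ : B →* Fˣ, χ α = 1 → χ (d (x * y)) * χ (d 1) = χ (d x) * χ (d y) := by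
    intro χ hα
    by_cases h1 : ∃ g, χ g ≠ 1
    · have h2 := poly_mul φ (fun x => if x = 0 then 0 else ((χ (d x) : Fˣ) : F)) (by simp)
        (fun x hx => by simp [hx]) (fun a ha => h.corr hd χ hα h1 ha) x y hx hy
      simp only [mul_ne_zero hx hy, if_false, one_ne_zero, hx, hy] at h2
      apply Units.ext
      rw [Units.val_mul, Units.val_mul]
      exact h2
    · push Not at h1
      simp only [h1]
  by_contra hcon
  set u : B ⧸ Subgroup.zpowers α :=
    qq α (d (x * y)) * qq α (d 1) * (qq α (d x) * qq α (d y))⁻¹ with hu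
  have hu1 : u ≠ 1 := by
    rw [hu, Ne, mul_inv_eq_one]
    exact hcon
  have hcard := h.cardQ
  have : Finite (B ⧸ Subgroup.zpowers α) := Quotient.finite _
  have hexp : Monoid.exponent (B ⧸ Subgroup.zpowers α) ∣ t := by
    have h3 := Group.exponent_dvd_nat_card (G := B ⧸ Subgroup.zpowers α)
    rwa [hcard] at h3
  have ht : 0 < t := by
    rw [← hcard]
    exact Nat.card_pos
  have : NeZero ((Monoid.exponent (B ⧸ Subgroup.zpowers α) : ℕ) : F) := by
    refine ⟨fun h0 => ?_⟩
    have h1 : ((Monoid.exponent (B ⧸ Subgroup.zpowers α) : ℕ) : ZMod (2 * t + 1)) = 0 := by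
      apply φ.injective
      rwa [map_natCast, map_zero]
    have h2 := (ZMod.natCast_eq_zero_iff _ _).1 h1
    have h3 := Nat.le_of_dvd ht (h2.trans hexp)
    omega
  obtain ⟨ψ, hψ⟩ := CommGroup.exists_apply_ne_one_of_hasEnoughRootsOfUnity
    (B ⧸ Subgroup.zpowers α) F hu1
  apply hψ
  have h4 := hχ (ψ.comp (QuotientGroup.mk' (Subgroup.zpowers α))) (by
    rw [MonoidHom.comp_apply, QuotientGroup.mk'_apply,
      (QuotientGroup.eq_one_iff α).2 (Subgroup.mem_zpowers α), map_one])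
  simp only [MonoidHom.comp_apply, QuotientGroup.mk'_apply] at h4
  rw [hu, map_mul, map_inv, map_mul, map_mul, mul_inv_eq_one]
  exact h4

variable {d : ZMod (2 * t + 1) → B} (hd : ∀ x, x ≠ 0 → D (d x) ∧ lam (d x) = x)
include hd

lemma k2 (g : B) : (univ.filter fun x => x ≠ 0 ∧ qq α (d x) = qq α g).card = 2 := by
  have e : (univ.filter fun x => x ≠ 0 ∧ qq α (d x) = qq α g).image d =
      univ.filter fun d => D d ∧ ∃ i : ℕ, d = g * α ^ i := by
    ext b
    simp only [mem_image, mem_filter, mem_univ, true_and]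
    constructor
    · rintro ⟨x, ⟨hx, hq⟩, rfl⟩
      exact ⟨(hd x hx).1, qq_eq.1 hq.symm⟩
    · rintro ⟨hb, hi⟩
      have h0 := h.d0 b hb
      have hdb : d (lam b) = b := h.d1 _ _ (hd _ h0).1 hb (hd _ h0).2
      refine ⟨lam b, ⟨h0, ?_⟩, hdb⟩
      rw [hdb]
      exact (qq_eq.2 hi).symm
  have h5 := h.d3 g
  rw [← e, card_image_of_injOn] at h5
  · exact h5
  · intro x hx y hy hxy
    have hx0 := (mem_filter.1 (mem_coe.1 hx)).2.1
    have hy0 := (mem_filter.1 (mem_coe.1 hy)).2.1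
    rw [← (hd x hx0).2, ← (hd y hy0).2, hxy]

lemma k1 {x : ZMod (2 * t + 1)} (hx : x ≠ 0) :
    qq α (d x) = qq α (d 1) ↔ x = 1 ∨ x = -1 := by
  have h2 := h.k2 hd (d 1)
  set s := univ.filter fun x => x ≠ 0 ∧ qq α (d x) = qq α (d 1) with hs
  have h1s : (1 : ZMod (2 * t + 1)) ∈ s := mem_filter.2 ⟨mem_univ _, one_ne_zero, rfl⟩
  obtain ⟨z, hz, hz1⟩ := two_other h2 h1s
  obtain ⟨hz0, hzk⟩ := (mem_filter.1 hz).2
  have h3 : z * z ∈ s := by
    refine mem_filter.2 ⟨mem_univ _, mul_ne_zero hz0 hz0, ?_⟩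
    have h4 := h.kmul hd hz0 hz0
    rw [hzk] at h4
    exact mul_right_cancel h4
  have hz2 : z = -1 := by
    rcases two_mem h2 h1s hz (Ne.symm hz1) h3 with h5 | h5
    · have h6 : (z - 1) * (z + 1) = 0 := by linear_combination h5
      rcases mul_eq_zero.1 h6 with h7 | h7
      · exact absurd (sub_eq_zero.1 h7) hz1
      · exact eq_neg_of_add_eq_zero_left h7
    · exfalso
      apply hz1
      exact mul_left_cancel₀ hz0 (by rw [h5, mul_one])
  constructor
  · intro hk
    have h4 : x ∈ s := mem_filter.2 ⟨mem_univ _, hx, hk⟩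
    rcases two_mem h2 h1s hz (Ne.symm hz1) h4 with h5 | h5
    · exact Or.inl h5
    · exact Or.inr (h5.trans hz2)
  · rintro (rfl | rfl)
    · rfl
    · rw [← hz2]
      exact hzk

lemma keq {x y : ZMod (2 * t + 1)} (hx : x ≠ 0) (hy : y ≠ 0) :
    qq α (d x) = qq α (d y) ↔ x = y ∨ x = -y := by
  have hw : x / y ≠ 0 := div_ne_zero hx hy
  have h1 := h.kmul hd hw hy
  rw [div_mul_cancel₀ _ hy] at h1
  have h2 : qq α (d x) = qq α (d y) ↔ qq α (d (x / y)) = qq α (d 1) := by
    constructor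
    · intro h3
      rw [h3, mul_comm] at h1
      exact (mul_right_cancel h1).symm
    · intro h3
      rw [h3, mul_comm (qq α (d 1))] at h1
      exact mul_right_cancel h1
  rw [h2, h.k1 hd hw]
  constructor
  · rintro (h3 | h3)
    · exact Or.inl ((div_eq_one_iff_eq hy).1 h3)
    · right
      rw [div_eq_iff hy] at h3
      rw [h3]; ring
  · rintro (rfl | rfl)
    · exact Or.inl (div_self hx)
    · right
      rw [neg_div, div_self hy]

omit hd in
/-- coordinates on the cosets -/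
lemma coord : ∃ E E' : B → ZMod (2 * t + 1), (∀ g, E g ≠ 0) ∧ (∀ g, E' g ≠ 0) ∧
    (∀ g k, (∃ i : ℕ, k = g * α ^ i) ↔ (E g = E k ∨ E g = -E k)) ∧
    (∀ g k, (∃ i : ℕ, k = g * α ^ i) ↔ (E' g = E' k ∨ E' g = -E' k)) ∧
    ∀ g k, D (k⁻¹ * g) ↔ ((lam g - lam k) * E' k = E g ∨ (lam g - lam k) * E' k = -E g) := by
  obtain ⟨d, hd⟩ := h.ex_d
  have hex : ∀ g : B, ∃ x, x ≠ 0 ∧ qq α (d x) = qq α g := by
    intro g
    have h2 := h.k2 hd g
    obtain ⟨x, hx⟩ : (univ.filter fun x => x ≠ 0 ∧ qq α (d x) = qq α g).Nonempty := by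
      rw [← card_pos, h2]; omega
    exact ⟨x, (mem_filter.1 hx).2⟩
  choose e he0 he using hex
  refine ⟨fun g => e (g * d 1), fun g => e (g * d 1 * d 1), fun g => he0 _, fun g => he0 _,
    ?_, ?_, ?_⟩
  · intro g k
    simp only
    rw [← h.keq hd (he0 _) (he0 _), he, he, ← qq_eq, qq_mul, qq_mul, mul_left_inj]
  · intro g k
    simp only
    rw [← h.keq hd (he0 _) (he0 _), he, he, ← qq_eq, qq_mul, qq_mul, qq_mul, qq_mul,
      mul_left_inj, mul_left_inj]
  · intro g k
    simp only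
    have hD : ∀ b, D b ↔ lam b ≠ 0 ∧ qq α b = qq α (d (lam b)) := by
      intro b
      constructor
      · intro hb
        have h0 := h.d0 b hb
        have hdb : d (lam b) = b := h.d1 _ _ (hd _ h0).1 hb (hd _ h0).2
        exact ⟨h0, by rw [hdb]⟩
      · rintro ⟨h0, h1⟩
        obtain ⟨i, hi⟩ := qq_eq.1 h1
        have h3 : lam (d (lam b)) = lam b := (hd _ h0).2
        rw [hi, h.lmul] at h3
        have h4 : lam (α ^ i) = 0 := by linear_combination h3
        rw [h.pow_one h4, mul_one] at hi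
        rw [← hi]
        exact (hd _ h0).1
    rw [hD, h.lmul, h.linv, neg_add_eq_sub]
    set l := lam g - lam k with hl
    by_cases hl0 : l = 0
    · rw [hl0]
      constructor
      · rintro ⟨h1, -⟩
        exact absurd rfl h1
      · rintro (h1 | h1)
        · rw [zero_mul] at h1
          exact absurd h1.symm (he0 _)
        · rw [zero_mul, zero_eq_neg] at h1
          exact absurd h1 (he0 _)
    · have h1 := h.kmul hd hl0 (he0 (k * d 1 * d 1))
      rw [he] at h1
      have h2 : l * e (k * d 1 * d 1) ≠ 0 := mul_ne_zero hl0 (he0 _)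
      rw [← h.keq hd h2 (he0 _), he]
      have h3 : qq α (d (l * e (k * d 1 * d 1))) = qq α (d l) * qq α k * qq α (d 1) := by
        rw [qq_mul, qq_mul, ← mul_assoc, ← mul_assoc] at h1
        exact mul_right_cancel h1
      rw [h3, qq_mul g (d 1), mul_left_inj]
      constructor
      · rintro ⟨-, h4⟩
        rw [← h4]
        rw [← qq_mul, mul_comm k⁻¹ g, inv_mul_cancel_right]
      · intro h4
        refine ⟨hl0, ?_⟩
        rw [qq_mul, ← h4, mul_comm (qq α (d l)), ← mul_assoc, ← qq_mul, inv_mul_cancel]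
        exact one_mul _

end DD

end Pool.Agent.HSB
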