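import Pool.Agent.HSB.Cor2
import Pool.Agent.UQL.Defs

set_option autoImplicit false

/-!
# HSB (MP_7e1f1a_co): coordinates of the points and blocks
-/

namespace Pool.Agent.HSB

open Finset Classical UQL

universe u v w x

variable {V : Type u} {W : Type v} [Fintype V] [Fintype W] {I : V → W → Prop}
  {B : Type w} [CommGroup B] [MulAction B V] [MulAction B W]

lemma div_pm {K : Type} [Field K] {a b : K} (hb : b ≠ 0) :
    (a * b⁻¹ = 1 ∨ a * b⁻¹ = -1) ↔ (a = b ∨ a = -b) := by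
  constructor
  · rintro (h | h)
    · left
      have := congrArg (· * b) h
      simpa [hb] using this
    · right
      have := congrArg (· * b) h
      simpa [hb] using this
  · rintro (rfl | rfl)
    · left; exact mul_inv_cancel₀ hb
    · right; rw [neg_mul, mul_inv_cancel₀ hb]

theorem GS.coords {t : ℕ} (h : GS t I B) (hp : Fact (2 * t + 1).Prime) :
    ∃ (vec : V → ZMod (2 * t + 1) × ZMod (2 * t + 1))
      (wec : W → ZMod (2 * t + 1) × ZMod (2 * t + 1)), (∀ x, vec x ≠ 0) ∧ (∀ b, wec b ≠ 0) ∧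
      ∀ x b, I x b ↔ dt (wec b) (vec x) = 1 ∨ dt (wec b) (vec x) = -1 := by
  have hfin := h.finB hp
  have := Fintype.ofFinite B
  have hp' := hp
  obtain ⟨α, hα⟩ := exists_prime_orderOf_dvd_card (G := B) (2 * t + 1) (by
    rw [← Nat.card_eq_fintype_card, h.card]
    exact Dvd.intro _ rfl)
  have hα1 : α ≠ 1 := by
    rintro rfl
    rw [orderOf_one] at hα
    have := h.hs.t1
    omega
  have hαp : α ^ (2 * t + 1) = 1 := by rw [← hα]; exact pow_orderOf_eq_one α
  obtain ⟨b0, hb0⟩ := h.fix_ex hp hαp hα1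
  obtain ⟨P0, hP0b⟩ : ∃ y, I y b0 := by
    have h1 : (BP I b0).Nonempty := by rw [← card_pos, h.hs.siz]; omega
    obtain ⟨y, hy⟩ := h1
    exact ⟨y, mem_BP.1 hy⟩
  have hP0 : α • P0 ≠ P0 := h.mvd' hp hαp hα1 hb0 hP0b
  obtain ⟨L0, hL0⟩ := h.hs.ex_mi P0
  have hm := h.mvL0 hp hαp hα1 hb0 hP0 hL0
  obtain ⟨lam, hl1, hl2⟩ := h.ex_lam hp hαp hα1 hb0 hP0 hL0
  have hdd := h.dd hp hαp hα1 hb0 hP0 hL0 hl1 hl2
  obtain ⟨E, E', hE, hE', hEc, hEc', hDE⟩ := hdd.coord
  -- the points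
  have hv : ∀ y : V, ∃ v : ZMod (2 * t + 1) × ZMod (2 * t + 1),
      (∃ g : B, g • P0 = y ∧ v = (lam g * (E g)⁻¹, (E g)⁻¹)) ∨
      (α • y = y ∧ ∃ k : B, I y (k • L0) ∧ v = ((E' k)⁻¹, 0)) := by
    intro y
    by_cases hy : α • y = y
    · obtain ⟨c, hc⟩ := h.hs.ex y
      have hcm := h.mvd hp hαp hα1 hy hc
      obtain ⟨k, hk⟩ := h.transW hp hαp hα1 hb0 hm hcm
      exact ⟨_, Or.inr ⟨hy, k, by rw [hk]; exact hc, rfl⟩⟩
    · obtain ⟨g, hg⟩ := h.transV hp hαp hα1 hb0 hP0 hy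
      exact ⟨_, Or.inl ⟨g, hg, rfl⟩⟩
  have hw : ∀ c : W, ∃ w : ZMod (2 * t + 1) × ZMod (2 * t + 1),
      (∃ k : B, k • L0 = c ∧ w = (E' k, -(lam k * E' k))) ∨
      (α • c = c ∧ ∃ g : B, I (g • P0) c ∧ w = (0, E g)) := by
    intro c
    by_cases hc : α • c = c
    · obtain ⟨y, hy⟩ : ∃ y, I y c := by
        have h1 : (BP I c).Nonempty := by rw [← card_pos, h.hs.siz]; omega
        obtain ⟨y, hy⟩ := h1
        exact ⟨y, mem_BP.1 hy⟩
      have hym := h.mvd' hp hαp hα1 hc hy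
      obtain ⟨g, hg⟩ := h.transV hp hαp hα1 hb0 hP0 hym
      exact ⟨_, Or.inr ⟨hc, g, by rw [hg]; exact hy, rfl⟩⟩
    · obtain ⟨k, hk⟩ := h.transW hp hαp hα1 hb0 hm hc
      exact ⟨_, Or.inl ⟨k, hk, rfl⟩⟩
  choose vec hvec using hv
  choose wec hwec using hw
  refine ⟨vec, wec, fun y h0 => ?_, fun c h0 => ?_, fun y c => ?_⟩
  · rcases hvec y with ⟨g, -, hg⟩ | ⟨-, k, -, hk⟩
    · rw [hg] at h0
      exact inv_ne_zero (hE g) (congrArg Prod.snd h0)
    · rw [hk] at h0
      exact inv_ne_zero (hE' k) (congrArg Prod.fst h0)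
  · rcases hwec c with ⟨k, -, hk⟩ | ⟨-, g, -, hg⟩
    · rw [hk] at h0
      exact hE' k (congrArg Prod.fst h0)
    · rw [hg] at h0
      exact hE g (congrArg Prod.snd h0)
  · rcases hvec y with ⟨g, rfl, hg⟩ | ⟨hy, k, hk, hvk⟩
    · rcases hwec c with ⟨k, rfl, hk⟩ | ⟨hc, g', hg', hwg⟩
      · rw [hg, hk]
        have e1 : dt (E' k, -(lam k * E' k)) (lam g * (E g)⁻¹, (E g)⁻¹) =
            ((lam g - lam k) * E' k) * (E g)⁻¹ := by
          unfold dt
          ring
        rw [e1, div_pm (hE g), ← hDE]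
        rw [mul_smul, ← h.inc k (k⁻¹ • g • P0) L0, smul_inv_smul]
      · rw [hg, hwg]
        have e1 : dt ((0 : ZMod (2 * t + 1)), E g') (lam g * (E g)⁻¹, (E g)⁻¹) =
            E g' * (E g)⁻¹ := by
          unfold dt
          ring
        rw [e1, div_pm (hE g), ← hEc]
        constructor
        · intro hI
          obtain ⟨i, hi⟩ := h.orbL hp hαp hα1 hb0 hc hg' hI
          refine ⟨i, ?_⟩
          have h1 : ((g' * α ^ i)⁻¹ * g) • P0 = P0 := by
            rw [mul_smul, hi, inv_smul_eq_iff, mul_comm g', mul_smul]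
          have h2 := h.freeV hp hαp hα1 hb0 hP0 h1
          rw [inv_mul_eq_one] at h2
          exact h2.symm
        · rintro ⟨i, rfl⟩
          rw [mul_comm, mul_smul, h.inc'' (fix_iff_pow hc i)]
          exact hg'
    · rcases hwec c with ⟨k', rfl, hk'⟩ | ⟨hc, g', hg', hwg⟩
      · rw [hvk, hk']
        have e1 : dt (E' k', -(lam k' * E' k')) ((E' k)⁻¹, 0) = E' k' * (E' k)⁻¹ := by
          unfold dt
          ring
        rw [e1, div_pm (hE' k), ← hEc']
        constructor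
        · intro hI
          obtain ⟨i, hi⟩ := h.orbX hp hαp hα1 hb0 hy hI hk
          refine ⟨i, ?_⟩
          have h1 : ((k' * α ^ i)⁻¹ * k) • L0 = L0 := by
            rw [mul_smul, hi, inv_smul_eq_iff, mul_comm k', mul_smul]
          have h2 := h.freeW hp hαp hα1 hb0 hm h1
          rw [inv_mul_eq_one] at h2
          exact h2.symm
        · rintro ⟨i, rfl⟩
          rw [mul_comm, mul_smul, h.inc' (fix_iff_pow hy i)] at hk
          exact hk
      · rw [hvk, hwg]
        have e1 : dt ((0 : ZMod (2 * t + 1)), E g') ((E' k)⁻¹, 0) = 0 := by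
          unfold dt
          ring
        rw [e1]
        constructor
        · intro hI
          exact absurd hI (h.no_flag hp hαp hα1 hy hc)
        · rintro (h1 | h1)
          · exact absurd h1 zero_ne_one
          · rw [zero_eq_neg] at h1
            exact absurd h1 one_ne_zero

end Pool.Agent.HSB
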