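import Mathlib

set_option autoImplicit false

/-!
# HSB (MP_7e1f1a_co): homology semibiplanes: definitions
-/

namespace Pool.Agent.HSB

universe u v

variable {V : Type u} {W : Type v}

/-- the incidence graph of the structure with points `V`, blocks `W` and incidence `I` -/
def incGraph (I : V → W → Prop) : SimpleGraph (V ⊕ W) :=
  SimpleGraph.fromRel fun a b => ∃ x c, a = Sum.inl x ∧ b = Sum.inr c ∧ I x c

/-- parallel blocks: equal or without common points -/
def Par (I : V → W → Prop) (b c : W) : Prop := b = c ∨ ∀ x, ¬ (I x b ∧ I x c)

/-- `I` is the incidence relation of a homology semibiplane of order `k`: two different points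
are on exactly `0` or `2` common blocks, two different blocks have exactly `0` or `2` common
points, the incidence graph is connected, every block has at least three points, all blocks have
`k` points, parallelism is transitive (so the semibiplane is divisible), and there are
`(k ^ 2 - 1) / 2` points (so `k` is odd). -/
structure IsHS (k : ℕ) (I : V → W → Prop) : Prop where
  pts : ∀ x y, x ≠ y → Nat.card {b // I x b ∧ I y b} = 0 ∨ Nat.card {b // I x b ∧ I y b} = 2
  bls : ∀ b c, b ≠ c → Nat.card {x // I x b ∧ I x c} = 0 ∨ Nat.card {x // I x b ∧ I x c} = 2
  conn : (incGraph I).Connected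
  big : ∀ b, 3 ≤ Nat.card {x // I x b}
  siz : ∀ b, Nat.card {x // I x b} = k
  par : ∀ b c d, Par I b c → Par I c d → Par I b d
  num : 2 * Nat.card V + 1 = k ^ 2

end Pool.Agent.HSB
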