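import Pool.Agent.HSB.Grp

set_option autoImplicit false

/-!
# HSB (MP_7e1f1a_co): the difference set
-/

namespace Pool.Agent.HSB

open Finset Classical

universe u v w x

/-- the group theoretic data -/
structure DD (t : ℕ) {B : Type w} [CommGroup B] [Fintype B] (α : B)
    (lam : B → ZMod (2 * t + 1)) (D : B → Prop) : Prop where
  card : Fintype.card B = (2 * t + 1) * t
  hα : α ^ (2 * t + 1) = 1
  lmul : ∀ g h, lam (g * h) = lam g + lam h
  lα : lam α ≠ 0
  d0 : ∀ b, D b → lam b ≠ 0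
  d1 : ∀ d e, D d → D e → lam d = lam e → d = e
  d2 : ∀ x, x ≠ 0 → ∃ d, D d ∧ lam d = x
  d3 : ∀ g, (univ.filter fun d => D d ∧ ∃ i : ℕ, d = g * α ^ i).card = 2
  r1 : ∀ b, lam b ≠ 0 → (∃ i : ℕ, b = α ^ i) →
    (univ.filter fun d => D d ∧ D (d * b)).card = 1
  r2 : ∀ b, lam b ≠ 0 → (∀ i : ℕ, b ≠ α ^ i) →
    (univ.filter fun d => D d ∧ D (d * b)).card = 2

variable {V : Type u} {W : Type v} [Fintype V] [Fintype W] {I : V → W → Prop}
  {B : Type w} [CommGroup B] [MulAction B V] [MulAction B W]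

namespace GS

variable {t : ℕ} (h : GS t I B)
include h

/-- the stabiliser of the class of `L0` -/
def stab (L0 : W) : Subgroup B where
  carrier := {g | Par I L0 (g • L0)}
  one_mem' := by
    simp only [Set.mem_setOf_eq, one_smul]
    exact Par.refl _
  mul_mem' := by
    intro a b ha hb
    simp only [Set.mem_setOf_eq] at ha hb ⊢
    rw [mul_smul]
    exact h.hs.par _ _ _ ha ((h.par_smul a _ _).2 hb)
  inv_mem' := by
    intro a ha
    simp only [Set.mem_setOf_eq] at ha ⊢
    have := (h.par_smul a⁻¹ _ _).2 ha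
    rw [inv_smul_smul] at this
    exact this.symm

lemma mem_stab {L0 : W} {g : B} : g ∈ h.stab L0 ↔ Par I L0 (g • L0) := Iff.rfl

variable (hp : Fact (2 * t + 1).Prime) {α : B} (hα : α ^ (2 * t + 1) = 1) (hα1 : α ≠ 1)
  {b0 : W} (hb0 : α • b0 = b0) {P0 : V} (hP0 : α • P0 ≠ P0) {L0 : W} (hL0 : P0 ∈ MI I L0)
include hp hα hα1 hb0 hP0 hL0

lemma mvL0 : α • L0 ≠ L0 := by
  intro hc
  obtain ⟨L, hL, hyL⟩ := h.blk hp hα hα1 hb0 hP0
  rw [h.fixB hp hα hα1 hb0] at hc hL
  exact mem_MI.1 hL0 L (h.hs.par _ _ _ hc.symm hL) hyL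

lemma card_stab : Nat.card (h.stab L0) = t := by
  have := h.finB hp
  have := Fintype.ofFinite B
  have hm := h.mvL0 hp hα hα1 hb0 hP0 hL0
  have e : (univ.filter fun g : B => g ∈ h.stab L0).image (fun g => g • L0) = CL I L0 := by
    ext c
    simp only [mem_image, mem_filter, mem_univ, true_and, mem_CL, h.mem_stab]
    constructor
    · rintro ⟨g, hg, rfl⟩
      exact hg
    · intro hc
      have hmc : α • c ≠ c := by
        intro hc2
        apply hm
        rw [h.fixB hp hα hα1 hb0] at hc2 ⊢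
        exact h.hs.par _ _ _ hc2 hc.symm
      obtain ⟨g, hg⟩ := h.transW hp hα hα1 hb0 hm hmc
      exact ⟨g, by rw [hg]; exact hc, hg⟩
  have h1 := h.hs.cardCL L0
  rw [← e, card_image_of_injOn] at h1
  · rw [Nat.card_eq_fintype_card, Fintype.card_subtype]
    exact h1
  · intro g _ g' _ he
    have he' : g • L0 = g' • L0 := he
    have h1 : (g'⁻¹ * g) • L0 = L0 := by rw [mul_smul, he', inv_smul_smul]
    have h2 := h.freeW hp hα hα1 hb0 hm h1
    rwa [inv_mul_eq_one, eq_comm] at h2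

lemma ex_lam : ∃ lam : B → ZMod (2 * t + 1), (∀ g h, lam (g * h) = lam g + lam h) ∧
    ∀ g, lam g = 0 ↔ Par I L0 (g • L0) := by
  have h1 := h.card_stab hp hα hα1 hb0 hP0 hL0
  have h2 := Subgroup.card_eq_card_quotient_mul_card_subgroup (h.stab L0)
  rw [h1, h.card] at h2
  have h3 : Nat.card (B ⧸ h.stab L0) = 2 * t + 1 :=
    (Nat.eq_of_mul_eq_mul_right (by have := h.hs.t1; omega) h2).symm
  have h4 : Nat.card (Multiplicative (ZMod (2 * t + 1))) = 2 * t + 1 := by
    rw [Nat.card_eq_fintype_card, Fintype.card_multiplicative, ZMod.card]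
  have hp' := hp
  let e := mulEquivOfPrimeCardEq h3 h4
  refine ⟨fun g => Multiplicative.toAdd (e (QuotientGroup.mk g)), fun g g' => ?_, fun g => ?_⟩
  · dsimp only
    rw [QuotientGroup.mk_mul, map_mul, toAdd_mul]
  · dsimp only
    rw [toAdd_eq_zero, map_eq_one_iff e e.injective, QuotientGroup.eq_one_iff, h.mem_stab]

omit hp hα hα1 hb0 hP0 hL0 in
lemma dinv (g : B) (x : V) (c : W) : I (g • x) c ↔ I x (g⁻¹ • c) := by
  rw [← h.inc g x, smul_inv_smul]

lemma dd [Fintype B] {lam : B → ZMod (2 * t + 1)}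
    (hl1 : ∀ g h, lam (g * h) = lam g + lam h) (hl2 : ∀ g, lam g = 0 ↔ Par I L0 (g • L0)) :
    DD t α lam fun b => I (b • P0) L0 := by
  have hp' := hp
  have hm := h.mvL0 hp hα hα1 hb0 hP0 hL0
  have t1 := h.hs.t1
  have hl0 : lam 1 = 0 := by rw [hl2, one_smul]; exact Par.refl _
  have hlinv : ∀ g, lam g⁻¹ = -lam g := by
    intro g
    have := hl1 g g⁻¹
    rw [mul_inv_cancel, hl0] at this
    linear_combination -this
  have hD0 : ∀ b : B, I (b • P0) L0 → lam b ≠ 0 := by
    intro b hb hlb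
    have h1 : lam b⁻¹ = 0 := by rw [hlinv, hlb, neg_zero]
    rw [hl2] at h1
    exact mem_MI.1 hL0 _ h1 ((h.dinv b P0 L0).1 hb)
  have hD1 : ∀ d e : B, I (d • P0) L0 → I (e • P0) L0 → lam d = lam e → d = e := by
    intro d e hd he hde
    have hs : lam (d⁻¹ * e) = 0 := by rw [hl1, hlinv, hde, neg_add_cancel]
    have hc1 := (h.dinv d P0 L0).1 hd
    have hc2 : I ((d⁻¹ * e) • P0) (d⁻¹ • L0) := by
      rw [mul_smul, h.inc]
      exact he
    have hpar : ¬ Par I L0 (d⁻¹ • L0) := fun hpar => mem_MI.1 hL0 _ hpar hc1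
    have hmi : (d⁻¹ * e) • P0 ∈ MI I L0 := by
      rw [hl2] at hs
      rw [h.mi_par hs]
      exact (h.mi_smul _ _ _).2 hL0
    have h2 := h.hs.mi_eq hpar hc2 hc1 hmi hL0
    have h3 := h.freeV hp hα hα1 hb0 hP0 h2
    rw [inv_mul_eq_one] at h3
    exact h3
  have hcardD : (univ.filter fun b : B => I (b • P0) L0).card = 2 * t := by
    have e : (univ.filter fun b : B => I (b • P0) L0).image (fun b => b • P0) =
        BP I L0 \ MI I b0 := by
      ext y
      simp only [mem_image, mem_filter, mem_univ, true_and, mem_sdiff, mem_BP,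
        ← h.fixV hp hα hα1 hb0]
      constructor
      · rintro ⟨g, hg, rfl⟩
        exact ⟨hg, fun h5 => hP0 ((fix_smul g).1 h5)⟩
      · rintro ⟨h5, h6⟩
        obtain ⟨g, hg⟩ := h.transV hp hα hα1 hb0 hP0 h6
        exact ⟨g, by rw [hg]; exact h5, hg⟩
    have h1 : (BP I L0 \ MI I b0).card = 2 * t := by
      have h2 := card_sdiff_add_card_inter (BP I L0) (MI I b0)
      rw [h.hs.one_mi (by rw [← h.fixB hp hα hα1 hb0]; exact hm), h.hs.siz] at h2
      omega
    rw [← e, card_image_of_injOn] at h1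
    · exact h1
    · intro g _ g' _ he
      have he' : g • P0 = g' • P0 := he
      have h1 : (g'⁻¹ * g) • P0 = P0 := by rw [mul_smul, he', inv_smul_smul]
      have h2 := h.freeV hp hα hα1 hb0 hP0 h1
      rwa [inv_mul_eq_one, eq_comm] at h2
  -- the blocks on `P0` and `b • P0`
  have hcount : ∀ b : B, (univ.filter fun d : B => I (d • P0) L0 ∧ I ((d * b) • P0) L0).card =
      ((PB I P0 ∩ PB I (b • P0)).filter fun c => α • c ≠ c).card := by
    intro b
    have e : (univ.filter fun d : B => I (d • P0) L0 ∧ I ((d * b) • P0) L0).image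
        (fun d => d⁻¹ • L0) = (PB I P0 ∩ PB I (b • P0)).filter fun c => α • c ≠ c := by
      ext c
      simp only [mem_image, mem_filter, mem_univ, true_and, mem_inter, mem_PB]
      constructor
      · rintro ⟨g, ⟨hg1, hg2⟩, rfl⟩
        refine ⟨⟨(h.dinv g P0 L0).1 hg1, ?_⟩, fun h5 => hm ((fix_smul g⁻¹).1 h5)⟩
        rw [mul_smul] at hg2
        exact (h.dinv g _ L0).1 hg2
      · rintro ⟨⟨h5, h6⟩, h7⟩
        obtain ⟨g, rfl⟩ := h.transW hp hα hα1 hb0 hm h7
        refine ⟨g⁻¹, ⟨?_, ?_⟩, by rw [inv_inv]⟩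
        · rw [h.dinv, inv_inv]; exact h5
        · rw [mul_smul, h.dinv, inv_inv]; exact h6
    rw [← e, card_image_of_injOn]
    intro g _ g' _ he
    have he' : g⁻¹ • L0 = g'⁻¹ • L0 := he
    have h1 : (g' * g⁻¹) • L0 = L0 := by rw [mul_smul, he', smul_inv_smul]
    have h2 := h.freeW hp hα hα1 hb0 hm h1
    rw [mul_inv_eq_one] at h2
    exact h2.symm
  refine ⟨by rw [← Nat.card_eq_fintype_card, h.card], hα, hl1, ?_, hD0, hD1, ?_, ?_, ?_, ?_⟩
  · intro hlα
    rw [hl2] at hlα
    apply hm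
    refine small (s := CL I L0) hα ?_ ?_ (mem_CL.2 (Par.refl _))
    · intro z hz
      rw [mem_CL] at hz ⊢
      exact h.hs.par _ _ _ hlα ((h.par_smul α L0 z).2 hz)
    · rw [h.hs.cardCL]; omega
  · intro x hx
    have e : (univ.filter fun b : B => I (b • P0) L0).image lam = univ.erase 0 := by
      refine eq_of_subset_of_card_le ?_ ?_
      · intro y hy
        obtain ⟨b, hb, rfl⟩ := mem_image.1 hy
        exact mem_erase.2 ⟨hD0 b (mem_filter.1 hb).2, mem_univ _⟩
      · rw [card_image_of_injOn, hcardD, card_erase_of_mem (mem_univ _), card_univ, ZMod.card]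
        · omega
        · intro d hd e he hde
          exact hD1 d e (mem_filter.1 (mem_coe.1 hd)).2 (mem_filter.1 (mem_coe.1 he)).2 hde
    have hx' : x ∈ (univ : Finset (ZMod (2 * t + 1))).erase 0 := mem_erase.2 ⟨hx, mem_univ _⟩
    rw [← e] at hx'
    obtain ⟨d, hd, hdx⟩ := mem_image.1 hx'
    exact ⟨d, (mem_filter.1 hd).2, hdx⟩
  · intro g
    have hgm : α • (g • P0) ≠ g • P0 := fun h5 => hP0 ((fix_smul g).1 h5)
    obtain ⟨L, hL, hgL⟩ := h.blk hp hα hα1 hb0 hgm
    have hnp : ¬ Par I L0 L := by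
      intro hpar
      apply hm
      rw [h.fixB hp hα hα1 hb0] at hL ⊢
      exact h.hs.par _ _ _ hL hpar.symm
    have e : (univ.filter fun d : B => I (d • P0) L0 ∧ ∃ i : ℕ, d = g * α ^ i).image
        (fun d => d • P0) = BP I L0 ∩ BP I L := by
      ext y
      simp only [mem_image, mem_filter, mem_univ, true_and, mem_inter, mem_BP]
      constructor
      · rintro ⟨d, ⟨hd1, i, rfl⟩, rfl⟩
        refine ⟨hd1, ?_⟩
        rw [mul_comm, mul_smul, h.inc'' (fix_iff_pow hL i)]
        exact hgL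
      · rintro ⟨h5, h6⟩
        obtain ⟨i, rfl⟩ := h.orbL hp hα hα1 hb0 hL hgL h6
        refine ⟨g * α ^ i, ⟨?_, i, rfl⟩, ?_⟩
        · rw [mul_comm, mul_smul]; exact h5
        · rw [mul_comm, mul_smul]
    have h1 := h.hs.inter_two hnp
    rw [← e, card_image_of_injOn] at h1
    · exact h1
    · intro g _ g' _ he
      have he' : g • P0 = g' • P0 := he
      have h1 : (g'⁻¹ * g) • P0 = P0 := by rw [mul_smul, he', inv_smul_smul]
      have h2 := h.freeV hp hα hα1 hb0 hP0 h1
      rwa [inv_mul_eq_one, eq_comm] at h2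
  · rintro b hb ⟨i, rfl⟩
    obtain ⟨L, hL, hgL⟩ := h.blk hp hα hα1 hb0 hP0
    have hL2 : I (α ^ i • P0) L := (h.inc'' (fix_iff_pow hL i)).2 hgL
    have hne : P0 ≠ α ^ i • P0 := by
      intro he
      have := h.freeV hp hα hα1 hb0 hP0 he.symm
      rw [this] at hb
      exact hb hl0
    rw [hcount]
    have e : (PB I P0 ∩ PB I (α ^ i • P0)).filter (fun c => α • c ≠ c) =
        (PB I P0 ∩ PB I (α ^ i • P0)).erase L := by
      ext c
      simp only [mem_filter, mem_erase, mem_inter, mem_PB]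
      constructor
      · rintro ⟨h5, h6⟩
        refine ⟨?_, h5⟩
        rintro rfl
        exact h6 hL
      · rintro ⟨h5, h6⟩
        exact ⟨h6, fun h7 => h5 (h.uniqL hp hα hα1 hb0 h7 hL h6.1 hgL)⟩
    rw [e, card_erase_of_mem (mem_inter.2 ⟨mem_PB.2 hgL, mem_PB.2 hL2⟩),
      h.hs.pts _ _ hne L hgL hL2]
  · intro b hb hbi
    rw [hcount]
    have e : (PB I P0 ∩ PB I (b • P0)).filter (fun c => α • c ≠ c) =
        PB I P0 ∩ PB I (b • P0) := by
      refine filter_true_of_mem fun c hc hfix => ?_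
      obtain ⟨h5, h6⟩ := mem_inter.1 hc
      rw [mem_PB] at h5 h6
      obtain ⟨i, hi⟩ := h.orbL hp hα hα1 hb0 hfix h5 h6
      apply hbi i
      have h1 : ((α ^ i)⁻¹ * b) • P0 = P0 := by rw [mul_smul, hi, inv_smul_smul]
      have h2 := h.freeV hp hα hα1 hb0 hP0 h1
      rw [inv_mul_eq_one] at h2
      exact h2.symm
    rw [e]
    have hj : ∃ c, I P0 c ∧ I (b • P0) c := by
      by_contra hcon
      push Not at hcon
      have h5 := h.hs.joined hL0 hcon
      have e2 : (univ.filter fun g : B => g ∈ h.stab L0).image (fun g => g • P0) =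
          MI I L0 := by
        refine eq_of_subset_of_card_le ?_ ?_
        · intro y hy
          obtain ⟨g, hg, rfl⟩ := mem_image.1 hy
          have hg2 := (mem_filter.1 hg).2
          rw [h.mem_stab] at hg2
          rw [h.mi_par hg2]
          exact (h.mi_smul _ _ _).2 hL0
        · rw [card_image_of_injOn, h.hs.cardMI]
          · have h6 := h.card_stab hp hα hα1 hb0 hP0 hL0
            rw [Nat.card_eq_fintype_card, Fintype.card_subtype] at h6
            exact h6.ge
          · intro g _ g' _ he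
            have he' : g • P0 = g' • P0 := he
            have h1 : (g'⁻¹ * g) • P0 = P0 := by rw [mul_smul, he', inv_smul_smul]
            have h2 := h.freeV hp hα hα1 hb0 hP0 h1
            rwa [inv_mul_eq_one, eq_comm] at h2
      rw [← e2] at h5
      obtain ⟨g, hg, hgb⟩ := mem_image.1 h5
      have hgb' : g • P0 = b • P0 := hgb
      have h1 : (g⁻¹ * b) • P0 = P0 := by rw [mul_smul, ← hgb', inv_smul_smul]
      have h2 := h.freeV hp hα hα1 hb0 hP0 h1
      rw [inv_mul_eq_one] at h2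
      subst h2
      apply hb
      rw [hl2]
      exact (mem_filter.1 hg).2
    obtain ⟨c, hc1, hc2⟩ := hj
    refine h.hs.pts _ _ ?_ c hc1 hc2
    intro he
    have := h.freeV hp hα hα1 hb0 hP0 he.symm
    rw [this] at hb
    exact hb hl0

end GS

end Pool.Agent.HSB
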