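import Pool.Agent.HSB.Str

set_option autoImplicit false

/-!
# HSB (MP_7e1f1a_co): the abelian group of order `p (p - 1) / 2`
-/

namespace Pool.Agent.HSB

open Finset Classical

universe u v w x

lemma two_mem {X : Type u} {s : Finset X} (hs : s.card = 2) {a b c : X} (ha : a ∈ s) (hb : b ∈ s)
    (hab : a ≠ b) (hc : c ∈ s) : c = a ∨ c = b := by
  obtain ⟨y, z, -, rfl⟩ := card_eq_two.1 hs
  simp only [mem_insert, mem_singleton] at ha hb hc
  rcases ha with rfl | rfl <;> rcases hb with rfl | rfl <;> rcases hc with rfl | rfl <;> tauto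

lemma two_other {X : Type u} {s : Finset X} (hs : s.card = 2) {a : X} (ha : a ∈ s) :
    ∃ b ∈ s, b ≠ a := by
  obtain ⟨y, z, hyz, rfl⟩ := card_eq_two.1 hs
  simp only [mem_insert, mem_singleton] at ha
  rcases ha with rfl | rfl
  · exact ⟨z, by simp, hyz.symm⟩
  · exact ⟨y, by simp, hyz⟩

section act

variable {B : Type w} [CommGroup B] {X : Type u} [MulAction B X] {p : ℕ} [hp : Fact p.Prime]
  {α : B}

lemma orb_inj (hα : α ^ p = 1) {z : X} (hz : α • z ≠ z) {i j : ℕ} (hi : i < p) (hj : j < p)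
    (h : α ^ i • z = α ^ j • z) : i = j := by
  have hd : MulAction.period α z ∣ p := MulAction.pow_smul_eq_iff_period_dvd.1 (by rw [hα, one_smul])
  have hper : MulAction.period α z = p := by
    rcases (Nat.dvd_prime hp.out).1 hd with h1 | h1
    · exfalso
      apply hz
      have := MulAction.pow_period_smul α z
      rwa [h1, pow_one] at this
    · exact h1
  have key : ∀ i j : ℕ, i < j → j < p → α ^ i • z ≠ α ^ j • z := by
    intro i j hij hj he
    have h1 : α ^ (j - i) • z = z := by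
      have h2 : α ^ i • (α ^ (j - i) • z) = α ^ i • z := by
        rw [smul_smul, ← pow_add, Nat.add_sub_cancel' hij.le, he]
      exact (smul_left_cancel_iff _).1 h2
    have h3 : p ∣ j - i := by
      rw [← hper]
      exact MulAction.pow_smul_eq_iff_period_dvd.1 h1
    have := Nat.le_of_dvd (by omega) h3
    omega
  rcases lt_trichotomy i j with h1 | h1 | h1
  · exact absurd h (key i j h1 hj)
  · exact h1
  · exact absurd h.symm (key j i h1 hi)

lemma orb_card (hα : α ^ p = 1) {z : X} (hz : α • z ≠ z) :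
    ((range p).image fun i => α ^ i • z).card = p := by
  rw [card_image_of_injOn, card_range]
  intro i hi j hj h
  simp only [coe_range, Set.mem_Iio] at hi hj
  exact orb_inj hα hz hi hj h

lemma orb_mem {s : Finset X} (hs : ∀ z ∈ s, α • z ∈ s) {z : X} (hz : z ∈ s) (i : ℕ) :
    α ^ i • z ∈ s := by
  induction i with
  | zero => rwa [pow_zero, one_smul]
  | succ i ih =>
    rw [pow_succ', ← smul_smul]
    exact hs _ ih

/-- small invariant sets are fixed -/
lemma small (hα : α ^ p = 1) {s : Finset X} (hs : ∀ z ∈ s, α • z ∈ s) (hc : s.card < p) {z : X}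
    (hz : z ∈ s) : α • z = z := by
  by_contra hne
  have h1 : ((range p).image fun i => α ^ i • z) ⊆ s := by
    intro y hy
    obtain ⟨i, -, rfl⟩ := mem_image.1 hy
    exact orb_mem hs hz i
  have h2 := card_le_card h1
  rw [orb_card hα hne] at h2
  omega

/-- an invariant set of size `p` with a moved point is an orbit -/
lemma orbit_eq (hα : α ^ p = 1) {s : Finset X} (hs : ∀ z ∈ s, α • z ∈ s) (hc : s.card = p) {z : X}
    (hz : z ∈ s) (hne : α • z ≠ z) {y : X} (hy : y ∈ s) : ∃ i : ℕ, y = α ^ i • z := by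
  have h1 : ((range p).image fun i => α ^ i • z) ⊆ s := by
    intro y hy
    obtain ⟨i, -, rfl⟩ := mem_image.1 hy
    exact orb_mem hs hz i
  have h2 := eq_of_subset_of_card_le h1 (by rw [orb_card hα hne, hc])
  rw [← h2] at hy
  obtain ⟨i, -, rfl⟩ := mem_image.1 hy
  exact ⟨i, rfl⟩

lemma fix_iff_pow {z : X} (hz : α • z = z) (i : ℕ) : α ^ i • z = z := by
  induction i with
  | zero => rw [pow_zero, one_smul]
  | succ i ih => rw [pow_succ', ← smul_smul, ih, hz]

lemma fix_smul {z : X} (g : B) : α • (g • z) = g • z ↔ α • z = z := by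
  rw [smul_comm, smul_left_cancel_iff]

end act

variable {V : Type u} {W : Type v} [Fintype V] [Fintype W] {I : V → W → Prop}
  {B : Type w} [CommGroup B] [MulAction B V] [MulAction B W]

/-- the situation: `k = 2 t + 1` is a prime and `B` is an abelian group of order `t k` of
automorphisms -/
structure GS (t : ℕ) (I : V → W → Prop) (B : Type w) [CommGroup B] [MulAction B V]
    [MulAction B W] : Prop where
  hs : HS t I
  inc : ∀ (g : B) x b, I (g • x) (g • b) ↔ I x b
  faith : ∀ g : B, (∀ x : V, g • x = x) → g = 1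
  card : Nat.card B = (2 * t + 1) * t

namespace GS

variable {t : ℕ} (h : GS t I B)
include h

lemma par_smul (g : B) (b c : W) : Par I (g • b) (g • c) ↔ Par I b c := by
  unfold Par
  rw [smul_left_cancel_iff]
  constructor
  · rintro (h1 | h1)
    · exact Or.inl h1
    · exact Or.inr fun x hx => h1 (g • x) ⟨(h.inc g x b).2 hx.1, (h.inc g x c).2 hx.2⟩
  · rintro (h1 | h1)
    · exact Or.inl h1
    · refine Or.inr fun x hx => h1 (g⁻¹ • x) ⟨?_, ?_⟩
      · rw [← h.inc g, smul_inv_smul]; exact hx.1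
      · rw [← h.inc g, smul_inv_smul]; exact hx.2

lemma mi_smul (g : B) (x : V) (b : W) : g • x ∈ MI I (g • b) ↔ x ∈ MI I b := by
  rw [mem_MI, mem_MI]
  constructor
  · intro h1 c hc hx
    exact h1 (g • c) ((h.par_smul g b c).2 hc) ((h.inc g x c).2 hx)
  · intro h1 c hc hx
    refine h1 (g⁻¹ • c) ?_ ?_
    · rw [← h.par_smul g, smul_inv_smul]; exact hc
    · rw [← h.inc g, smul_inv_smul]; exact hx

lemma mi_par {b c : W} (hbc : Par I b c) : MI I b = MI I c := by
  ext x
  rw [mem_MI, mem_MI]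
  exact ⟨fun h1 d hd => h1 d (h.hs.par _ _ _ hbc hd),
    fun h1 d hd => h1 d (h.hs.par _ _ _ hbc.symm hd)⟩

lemma inc' {g : B} {x : V} {b : W} (hx : g • x = x) : I x (g • b) ↔ I x b := by
  rw [← h.inc g x b, hx]

lemma inc'' {g : B} {x : V} {b : W} (hb : g • b = b) : I (g • x) b ↔ I x b := by
  rw [← h.inc g x b, hb]

/-- an automorphism which fixes a block and its points is trivial -/
lemma all_fix {g : B} {L : W} (hL : g • L = L) (hy : ∀ y, I y L → g • y = y) : g = 1 := by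
  have hbl : ∀ y c, I y L → I y c → g • c = c := by
    intro y c hyL hyc
    by_cases hcL : c = L
    · rw [hcL, hL]
    · have h2 := h.hs.bls L c (Ne.symm hcL) y hyL hyc
      obtain ⟨z, hz, hzy⟩ := two_other h2 (mem_inter.2 ⟨mem_BP.2 hyL, mem_BP.2 hyc⟩)
      obtain ⟨hzL, hzc⟩ := mem_inter.1 hz
      rw [mem_BP] at hzL hzc
      have h3 := h.hs.pts y z (Ne.symm hzy) L hyL hzL
      rcases two_mem h3 (a := L) (b := c) (c := g • c)
        (mem_inter.2 ⟨mem_PB.2 hyL, mem_PB.2 hzL⟩) (mem_inter.2 ⟨mem_PB.2 hyc, mem_PB.2 hzc⟩)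
        (Ne.symm hcL) (mem_inter.2 ⟨mem_PB.2 ((h.inc' (hy y hyL)).2 hyc),
          mem_PB.2 ((h.inc' (hy z hzL)).2 hzc)⟩) with h4 | h4
      · exfalso
        apply hcL
        rw [← hL] at h4
        exact (smul_left_cancel_iff g).1 h4
      · exact h4
  refine h.faith g fun z => ?_
  by_cases hzL : I z L
  · exact hy z hzL
  obtain ⟨c, hc, hcL⟩ : ∃ c, I z c ∧ ¬ Par I L c := by
    by_contra hcon
    push Not at hcon
    have h1 : (PB I z).card ≤ 1 := by
      rw [card_le_one]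
      intro a ha b hb
      rw [mem_PB] at ha hb
      exact (h.hs.par _ _ _ (hcon a ha).symm (hcon b hb)).eq_of ha hb
    rw [h.hs.deg z] at h1
    have := h.hs.t1
    omega
  have h2 := h.hs.inter_two hcL
  obtain ⟨y, hyy⟩ : (BP I L ∩ BP I c).Nonempty := by
    rw [← card_pos, h2]; omega
  obtain ⟨hyL, hyc⟩ := mem_inter.1 hyy
  rw [mem_BP] at hyL hyc
  have hyz : y ≠ z := fun e => hzL (e ▸ hyL)
  have h3 := h.hs.pts y z hyz c hyc hc
  obtain ⟨c', hc', hcc⟩ := two_other h3 (mem_inter.2 ⟨mem_PB.2 hyc, mem_PB.2 hc⟩)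
  obtain ⟨hyc', hzc'⟩ := mem_inter.1 hc'
  rw [mem_PB] at hyc' hzc'
  have h4 := h.hs.bls c c' (Ne.symm hcc) y hyc hyc'
  have f1 := hbl y c hyL hyc
  have f2 := hbl y c' hyL hyc'
  rcases two_mem h4 (a := y) (b := z) (c := g • z)
    (mem_inter.2 ⟨mem_BP.2 hyc, mem_BP.2 hyc'⟩) (mem_inter.2 ⟨mem_BP.2 hc, mem_BP.2 hzc'⟩) hyz
    (mem_inter.2 ⟨mem_BP.2 ((h.inc'' f1).2 hc), mem_BP.2 ((h.inc'' f2).2 hzc')⟩) with h5 | h5
  · exfalso
    apply hyz
    have h6 := hy y hyL
    rw [← h5] at h6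
    rw [← h5]
    exact (smul_left_cancel_iff g).1 h6
  · exact h5

/-- the dual statement -/
lemma all_fix' {g : B} {x : V} (hx : g • x = x) (hc : ∀ c, I x c → g • c = c) : g = 1 := by
  obtain ⟨L, hL⟩ := h.hs.ex x
  refine h.all_fix (hc L hL) fun y hy => ?_
  by_cases hyx : y = x
  · rw [hyx, hx]
  have h3 := h.hs.pts x y (Ne.symm hyx) L hL hy
  obtain ⟨c', hc', hcc⟩ := two_other h3 (mem_inter.2 ⟨mem_PB.2 hL, mem_PB.2 hy⟩)
  obtain ⟨hxc', hyc'⟩ := mem_inter.1 hc'
  rw [mem_PB] at hxc' hyc'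
  have h4 := h.hs.bls L c' (Ne.symm hcc) x hL hxc'
  rcases two_mem h4 (a := x) (b := y) (c := g • y)
    (mem_inter.2 ⟨mem_BP.2 hL, mem_BP.2 hxc'⟩) (mem_inter.2 ⟨mem_BP.2 hy, mem_BP.2 hyc'⟩)
    (Ne.symm hyx)
    (mem_inter.2 ⟨mem_BP.2 ((h.inc'' (hc L hL)).2 hy), mem_BP.2 ((h.inc'' (hc c' hxc')).2 hyc')⟩)
    with h5 | h5
  · exfalso
    apply hyx
    rw [← hx] at h5
    exact (smul_left_cancel_iff g).1 h5
  · exact h5

variable (hp : Fact (2 * t + 1).Prime) {α : B} (hα : α ^ (2 * t + 1) = 1) (hα1 : α ≠ 1)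
include hp hα hα1

/-- no fixed flags -/
lemma no_flag {x : V} {b : W} (hx : α • x = x) (hb : α • b = b) : ¬ I x b := by
  intro hI
  refine hα1 (h.all_fix hb fun y hy => ?_)
  by_cases hyx : y = x
  · rw [hyx, hx]
  refine small (s := (BP I b).erase x) hα ?_ ?_ (mem_erase.2 ⟨hyx, mem_BP.2 hy⟩)
  · intro z hz
    obtain ⟨h1, h2⟩ := mem_erase.1 hz
    rw [mem_BP] at h2
    refine mem_erase.2 ⟨fun e => h1 ?_, mem_BP.2 ((h.inc'' hb).2 h2)⟩
    rw [← hx] at e
    exact (smul_left_cancel_iff α).1 e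
  · rw [card_erase_of_mem (mem_BP.2 hI), h.hs.siz b]
    omega

lemma fix_ex : ∃ b0 : W, α • b0 = b0 := by
  by_contra hcon
  push Not at hcon
  have ho : orderOf α = 2 * t + 1 := orderOf_eq_prime hα hα1
  have hP : IsPGroup (2 * t + 1) (Subgroup.zpowers α) :=
    IsPGroup.of_card (n := 1) (by rw [Nat.card_zpowers, ho, pow_one])
  have hnd : ¬ (2 * t + 1) ∣ Nat.card W := by
    rw [Nat.card_eq_fintype_card, h.hs.cardW]
    intro hd
    have h1 : (2 * t + 1) ∣ t := by
      have e : t * (2 * t + 2) = t * (2 * t + 1) + t := by ring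
      rw [e] at hd
      exact (Nat.dvd_add_right (Dvd.intro_left _ rfl)).1 hd
    have := Nat.le_of_dvd (by have := h.hs.t1; omega) h1
    omega
  obtain ⟨b0, hb0⟩ := hP.nonempty_fixed_point_of_prime_not_dvd_card W hnd
  exact hcon b0 (hb0 ⟨α, Subgroup.mem_zpowers α⟩)

variable {b0 : W} (hb0 : α • b0 = b0)
include hb0

lemma fixB (c : W) : α • c = c ↔ Par I b0 c := by
  have h1 : ∀ c, Par I b0 c → α • c = c := by
    intro c hc
    refine small (s := CL I b0) hα ?_ ?_ (mem_CL.2 hc)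
    · intro z hz
      rw [mem_CL] at hz ⊢
      have := (h.par_smul α b0 z).2 hz
      rwa [hb0] at this
    · rw [h.hs.cardCL b0]; omega
  have h2 : ∀ y, y ∈ MI I b0 → α • y = y := by
    intro y hy
    refine small (s := MI I b0) hα ?_ ?_ hy
    · intro z hz
      have := (h.mi_smul α z b0).2 hz
      rwa [hb0] at this
    · rw [h.hs.cardMI b0]; omega
  refine ⟨fun hc => ?_, h1 c⟩
  by_contra hcon
  have h3 := h.hs.one_mi hcon
  obtain ⟨y, hy⟩ := card_eq_one.1 h3
  have h4 : y ∈ BP I c ∩ MI I b0 := by rw [hy]; exact mem_singleton_self y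
  obtain ⟨h5, h6⟩ := mem_inter.1 h4
  exact h.no_flag hp hα hα1 (h2 y h6) hc (mem_BP.1 h5)

lemma fixV (y : V) : α • y = y ↔ y ∈ MI I b0 := by
  constructor
  · intro hy
    rw [mem_MI]
    intro c hc hyc
    exact h.no_flag hp hα hα1 hy ((h.fixB hp hα hα1 hb0 c).2 hc) hyc
  · intro hy
    refine small (s := MI I b0) hα ?_ ?_ hy
    · intro z hz
      have := (h.mi_smul α z b0).2 hz
      rwa [hb0] at this
    · rw [h.hs.cardMI b0]; omega

/-- the fixed block on a moved point -/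
lemma blk {y : V} (hy : α • y ≠ y) : ∃ L, α • L = L ∧ I y L := by
  rw [Ne, h.fixV hp hα hα1 hb0, mem_MI] at hy
  push Not at hy
  obtain ⟨c, hc, hyc⟩ := hy
  exact ⟨c, (h.fixB hp hα hα1 hb0 c).2 hc, hyc⟩

/-- the fixed point on a moved block -/
lemma pnt {c : W} (hc : α • c ≠ c) : ∃ x, α • x = x ∧ I x c := by
  rw [Ne, h.fixB hp hα hα1 hb0] at hc
  obtain ⟨y, hy⟩ := card_eq_one.1 (h.hs.one_mi hc)
  have h4 : y ∈ BP I c ∩ MI I b0 := by rw [hy]; exact mem_singleton_self y
  obtain ⟨h5, h6⟩ := mem_inter.1 h4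
  exact ⟨y, (h.fixV hp hα hα1 hb0 y).2 h6, mem_BP.1 h5⟩

omit hb0 in
lemma mvd {x : V} {c : W} (hx : α • x = x) (hI : I x c) : α • c ≠ c :=
  fun hc => h.no_flag hp hα hα1 hx hc hI

omit hb0 in
lemma mvd' {x : V} {c : W} (hc : α • c = c) (hI : I x c) : α • x ≠ x :=
  fun hx => h.no_flag hp hα hα1 hx hc hI

/-- the points of a fixed block form an orbit -/
lemma orbL {L : W} (hL : α • L = L) {y z : V} (hy : I y L) (hz : I z L) :
    ∃ i : ℕ, z = α ^ i • y := by
  refine orbit_eq (s := BP I L) hα ?_ (h.hs.siz L) (mem_BP.2 hy) (h.mvd' hp hα hα1 hL hy)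
    (mem_BP.2 hz)
  intro w hw
  rw [mem_BP] at hw ⊢
  exact (h.inc'' hL).2 hw

lemma orbX {x : V} (hx : α • x = x) {c d : W} (hc : I x c) (hd : I x d) :
    ∃ i : ℕ, d = α ^ i • c := by
  refine orbit_eq (s := PB I x) hα ?_ (h.hs.deg x) (mem_PB.2 hc) (h.mvd hp hα hα1 hx hc)
    (mem_PB.2 hd)
  intro w hw
  rw [mem_PB] at hw ⊢
  exact (h.inc' hx).2 hw

/-- two fixed blocks on a point are equal -/
lemma uniqL {L M : W} (hL : α • L = L) (hM : α • M = M) {y : V} (hy : I y L) (hy' : I y M) :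
    L = M := by
  rw [h.fixB hp hα hα1 hb0] at hL hM
  exact (h.hs.par _ _ _ hL.symm hM).eq_of hy hy'

/-- two fixed points on a block are equal -/
lemma uniqX {x y : V} (hx : α • x = x) (hy : α • y = y) {c : W} (hc : I x c) (hc' : I y c) :
    x = y := by
  have h1 : ¬ Par I b0 c := by
    rw [← h.fixB hp hα hα1 hb0]
    exact h.mvd hp hα hα1 hx hc
  rw [h.fixV hp hα hα1 hb0] at hx hy
  exact h.hs.mi_eq h1 hc hc' hx hy

lemma freeV {g : B} {y : V} (hy : α • y ≠ y) (hg : g • y = y) : g = 1 := by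
  obtain ⟨L, hL, hyL⟩ := h.blk hp hα hα1 hb0 hy
  have hgL : g • L = L := by
    refine h.uniqL hp hα hα1 hb0 ((fix_smul g).2 hL) hL (y := y) ?_ hyL
    rw [h.inc' hg]
    exact hyL
  refine h.all_fix hgL fun z hz => ?_
  obtain ⟨i, rfl⟩ := h.orbL hp hα hα1 hb0 hL hyL hz
  rw [smul_comm, hg]

lemma freeW {g : B} {c : W} (hc : α • c ≠ c) (hg : g • c = c) : g = 1 := by
  obtain ⟨x, hx, hxc⟩ := h.pnt hp hα hα1 hb0 hc
  have hgx : g • x = x := by
    refine h.uniqX hp hα hα1 hb0 ((fix_smul g).2 hx) hx (c := c) ?_ hxc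
    rw [h.inc'' hg]
    exact hxc
  refine h.all_fix' hgx fun d hd => ?_
  obtain ⟨i, rfl⟩ := h.orbX hp hα hα1 hb0 hx hxc hd
  rw [smul_comm, hg]

omit hα hα1 hb0 in
lemma finB : Finite B := Nat.finite_of_card_ne_zero (by
  rw [h.card]
  have := h.hs.t1
  positivity)

lemma transV {y z : V} (hy : α • y ≠ y) (hz : α • z ≠ z) : ∃ g : B, g • y = z := by
  have := h.finB hp
  have := Fintype.ofFinite B
  set s : Finset V := univ.image fun g : B => g • y with hs
  have hsc : s.card = (2 * t + 1) * t := by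
    rw [hs, card_image_of_injective, card_univ, ← Nat.card_eq_fintype_card, h.card]
    intro g g' he
    have he' : g • y = g' • y := he
    have h1 : (g'⁻¹ * g) • y = y := by rw [mul_smul, he', inv_smul_smul]
    have h2 := h.freeV hp hα hα1 hb0 hy h1
    rwa [inv_mul_eq_one, eq_comm] at h2
  have hsub : s ⊆ univ \ MI I b0 := by
    intro w hw
    obtain ⟨g, -, rfl⟩ := mem_image.1 hw
    rw [mem_sdiff, ← h.fixV hp hα hα1 hb0, fix_smul]
    exact ⟨mem_univ _, hy⟩
  have heq : s = univ \ MI I b0 := by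
    refine eq_of_subset_of_card_le hsub ?_
    rw [hsc, card_sdiff_of_subset (subset_univ _), card_univ, h.hs.num, h.hs.cardMI]
    have e : t * (2 * t + 2) = (2 * t + 1) * t + t := by ring
    omega
  have hzs : z ∈ s := by
    rw [heq, mem_sdiff, ← h.fixV hp hα hα1 hb0]
    exact ⟨mem_univ _, hz⟩
  obtain ⟨g, -, hg⟩ := mem_image.1 hzs
  exact ⟨g, hg⟩

lemma transW {y z : W} (hy : α • y ≠ y) (hz : α • z ≠ z) : ∃ g : B, g • y = z := by
  have := h.finB hp
  have := Fintype.ofFinite B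
  set s : Finset W := univ.image fun g : B => g • y with hs
  have hsc : s.card = (2 * t + 1) * t := by
    rw [hs, card_image_of_injective, card_univ, ← Nat.card_eq_fintype_card, h.card]
    intro g g' he
    have he' : g • y = g' • y := he
    have h1 : (g'⁻¹ * g) • y = y := by rw [mul_smul, he', inv_smul_smul]
    have h2 := h.freeW hp hα hα1 hb0 hy h1
    rwa [inv_mul_eq_one, eq_comm] at h2
  have hsub : s ⊆ univ \ CL I b0 := by
    intro w hw
    obtain ⟨g, -, rfl⟩ := mem_image.1 hw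
    rw [mem_sdiff, mem_CL, ← h.fixB hp hα hα1 hb0, fix_smul]
    exact ⟨mem_univ _, hy⟩
  have heq : s = univ \ CL I b0 := by
    refine eq_of_subset_of_card_le hsub ?_
    rw [hsc, card_sdiff_of_subset (subset_univ _), card_univ, h.hs.cardW, h.hs.cardCL]
    have e : t * (2 * t + 2) = (2 * t + 1) * t + t := by ring
    omega
  have hzs : z ∈ s := by
    rw [heq, mem_sdiff, mem_CL, ← h.fixB hp hα hα1 hb0]
    exact ⟨mem_univ _, hz⟩
  obtain ⟨g, -, hg⟩ := mem_image.1 hzs
  exact ⟨g, hg⟩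

end GS

end Pool.Agent.HSB
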