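import Pool.Agent.HSB.Defs

set_option autoImplicit false

/-!
# HSB (MP_7e1f1a_co): counting in a homology semibiplane
-/

namespace Pool.Agent.HSB

open Finset Classical

universe u v

variable {V : Type u} {W : Type v} [Fintype V] [Fintype W] {I : V → W → Prop}

/-- blocks on `x` -/
noncomputable def PB (I : V → W → Prop) (x : V) : Finset W := univ.filter fun b => I x b
/-- points on `b` -/
noncomputable def BP (I : V → W → Prop) (b : W) : Finset V := univ.filter fun x => I x b
/-- the class of `b` -/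
noncomputable def CL (I : V → W → Prop) (b : W) : Finset W := univ.filter fun c => Par I b c
/-- the points missed by the class of `b` -/
noncomputable def MI (I : V → W → Prop) (b : W) : Finset V :=
  univ.filter fun x => ∀ c, Par I b c → ¬ I x c

omit [Fintype V] in
lemma mem_PB {x : V} {b : W} : b ∈ PB I x ↔ I x b := by simp [PB]
omit [Fintype W] in
lemma mem_BP {x : V} {b : W} : x ∈ BP I b ↔ I x b := by simp [BP]
omit [Fintype V] in
lemma mem_CL {b c : W} : c ∈ CL I b ↔ Par I b c := by simp [CL]
lemma mem_MI {x : V} {b : W} : x ∈ MI I b ↔ ∀ c, Par I b c → ¬ I x c := by simp [MI]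

omit [Fintype V] [Fintype W] in
lemma Par.symm {b c : W} (h : Par I b c) : Par I c b := by
  rcases h with h | h
  · exact Or.inl h.symm
  · exact Or.inr fun x hx => h x ⟨hx.2, hx.1⟩

omit [Fintype V] [Fintype W] in
lemma Par.refl (b : W) : Par I b b := Or.inl rfl

omit [Fintype V] [Fintype W] in
lemma Par.eq_of {b c : W} {x : V} (h : Par I b c) (hb : I x b) (hc : I x c) : b = c := by
  rcases h with h | h
  · exact h
  · exact absurd ⟨hb, hc⟩ (h x)

/-- the data in the form which is used: `k = 2 t + 1` -/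
structure HS (t : ℕ) (I : V → W → Prop) : Prop where
  t1 : 1 ≤ t
  pts : ∀ x y, x ≠ y → ∀ b, I x b → I y b → (PB I x ∩ PB I y).card = 2
  bls : ∀ b c, b ≠ c → ∀ x, I x b → I x c → (BP I b ∩ BP I c).card = 2
  siz : ∀ b, (BP I b).card = 2 * t + 1
  par : ∀ b c d, Par I b c → Par I c d → Par I b d
  num : Fintype.card V = t * (2 * t + 2)
  ex : ∀ x, ∃ b, I x b

lemma IsHS.hs {k t : ℕ} (hk : k = 2 * t + 1) (h : IsHS k I) : HS t I := by
  have c1 : ∀ x y : V, Nat.card {b // I x b ∧ I y b} = (PB I x ∩ PB I y).card := by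
    intro x y
    rw [Nat.card_eq_fintype_card, Fintype.card_subtype]
    congr 1
    ext b
    simp [PB]
  have c2 : ∀ b c : W, Nat.card {x // I x b ∧ I x c} = (BP I b ∩ BP I c).card := by
    intro x y
    rw [Nat.card_eq_fintype_card, Fintype.card_subtype]
    congr 1
    ext b
    simp [BP]
  have c3 : ∀ b : W, Nat.card {x // I x b} = (BP I b).card := by
    intro b
    rw [Nat.card_eq_fintype_card, Fintype.card_subtype]
    rfl
  obtain ⟨v0⟩ := h.conn.nonempty
  have hW : Nonempty W := by
    by_contra hcon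
    rw [not_nonempty_iff] at hcon
    have hone : ∀ a b : V ⊕ W, (incGraph I).Reachable a b → a = b := by
      rintro a b ⟨w⟩
      cases w with
      | nil => rfl
      | cons hadj _ =>
        exfalso
        rw [incGraph, SimpleGraph.fromRel_adj] at hadj
        rcases hadj.2 with ⟨x, c, -⟩ | ⟨x, c, -⟩ <;> exact hcon.elim c
    have hsub : ∀ x y : V, x = y := fun x y =>
      Sum.inl_injective (hone _ _ (h.conn.preconnected (Sum.inl x) (Sum.inl y)))
    have h1 : Nat.card V ≤ 1 := by
      rw [Nat.card_eq_fintype_card]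
      exact Fintype.card_le_one_iff.2 hsub
    have h2 := h.num
    have h3 : k ^ 2 ≤ 3 := by omega
    have hk1 : k < 2 := by nlinarith
    have hk2 : k = 1 := by omega
    subst hk2
    rcases v0 with x | c
    · have : 0 < Nat.card V := by
        rw [Nat.card_eq_fintype_card]
        exact Fintype.card_pos_iff.2 ⟨x⟩
      omega
    · exact hcon.elim c
  obtain ⟨b0⟩ := hW
  have hk3 : 3 ≤ k := by rw [← h.siz b0]; exact h.big b0
  refine ⟨by omega, ?_, ?_, ?_, h.par, ?_, ?_⟩
  · intro x y hxy b hx hy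
    rcases h.pts x y hxy with h0 | h2
    · rw [c1, card_eq_zero] at h0
      exfalso
      have : b ∈ PB I x ∩ PB I y := mem_inter.2 ⟨mem_PB.2 hx, mem_PB.2 hy⟩
      rw [h0] at this
      exact notMem_empty _ this
    · rwa [c1] at h2
  · intro b c hbc x hx hy
    rcases h.bls b c hbc with h0 | h2
    · rw [c2, card_eq_zero] at h0
      exfalso
      have : x ∈ BP I b ∩ BP I c := mem_inter.2 ⟨mem_BP.2 hx, mem_BP.2 hy⟩
      rw [h0] at this
      exact notMem_empty _ this
    · rwa [c2] at h2
  · intro b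
    rw [← c3, h.siz, hk]
  · have := h.num
    rw [Nat.card_eq_fintype_card, hk] at this
    have e : (2 * t + 1) ^ 2 = 2 * (t * (2 * t + 2)) + 1 := by ring
    omega
  · intro x
    by_contra hcon
    push Not at hcon
    have hone : ∀ a b : V ⊕ W, (incGraph I).Reachable a b → a = Sum.inl x → a = b := by
      rintro a b ⟨w⟩ ha
      cases w with
      | nil => rfl
      | cons hadj _ =>
        exfalso
        subst ha
        rw [incGraph, SimpleGraph.fromRel_adj] at hadj
        rcases hadj.2 with ⟨y, c, e1, -, e3⟩ | ⟨y, c, -, e2, -⟩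
        · obtain rfl := Sum.inl_injective e1
          exact hcon c e3
        · exact absurd e2 (by simp)
    have := hone _ (Sum.inr b0) (h.conn.preconnected _ _) rfl
    exact absurd this (by simp)

namespace HS

variable {t : ℕ} (h : HS t I)
include h

/-- every point is on `k` blocks -/
lemma deg (x : V) : (PB I x).card = 2 * t + 1 := by
  obtain ⟨b, hb⟩ := h.ex x
  have key := sum_card_bipartiteAbove_eq_sum_card_bipartiteBelow
    (s := (BP I b).erase x) (t := (PB I x).erase b) (fun (y : V) (c : W) => I y c)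
  have h1 : ∀ y ∈ (BP I b).erase x,
      (bipartiteAbove (fun (y : V) (c : W) => I y c) ((PB I x).erase b) y).card = 1 := by
    intro y hy
    obtain ⟨hyx, hyb⟩ := mem_erase.1 hy
    have e : bipartiteAbove (fun (y : V) (c : W) => I y c) ((PB I x).erase b) y =
        (PB I x ∩ PB I y).erase b := by
      ext c
      simp only [bipartiteAbove, mem_filter, mem_erase, mem_inter, mem_PB]
      tauto
    rw [e, card_erase_of_mem (mem_inter.2 ⟨mem_PB.2 hb, mem_PB.2 (mem_BP.1 hyb)⟩),
      h.pts x y (Ne.symm hyx) b hb (mem_BP.1 hyb)]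
  have h2 : ∀ c ∈ (PB I x).erase b,
      (bipartiteBelow (fun (y : V) (c : W) => I y c) ((BP I b).erase x) c).card = 1 := by
    intro c hc
    obtain ⟨hcb, hcx⟩ := mem_erase.1 hc
    have e : bipartiteBelow (fun (y : V) (c : W) => I y c) ((BP I b).erase x) c =
        (BP I b ∩ BP I c).erase x := by
      ext y
      simp only [bipartiteBelow, mem_filter, mem_erase, mem_inter, mem_BP]
      tauto
    rw [e, card_erase_of_mem (mem_inter.2 ⟨mem_BP.2 hb, mem_BP.2 (mem_PB.1 hcx)⟩),
      h.bls b c (Ne.symm hcb) x hb (mem_PB.1 hcx)]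
  rw [sum_congr rfl h1, sum_congr rfl h2, sum_const, sum_const, smul_eq_mul, smul_eq_mul,
    mul_one, mul_one, card_erase_of_mem (mem_BP.2 hb), card_erase_of_mem (mem_PB.2 hb),
    h.siz b] at key
  have h3 : 0 < (PB I x).card := card_pos.2 ⟨b, mem_PB.2 hb⟩
  omega

lemma cardW : Fintype.card W = t * (2 * t + 2) := by
  have key := sum_card_bipartiteAbove_eq_sum_card_bipartiteBelow
    (s := (univ : Finset V)) (t := (univ : Finset W)) (fun (y : V) (c : W) => I y c)
  have h1 : ∀ y ∈ (univ : Finset V),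
      (bipartiteAbove (fun (y : V) (c : W) => I y c) univ y).card = 2 * t + 1 :=
    fun y _ => h.deg y
  have h2 : ∀ c ∈ (univ : Finset W),
      (bipartiteBelow (fun (y : V) (c : W) => I y c) univ c).card = 2 * t + 1 :=
    fun c _ => h.siz c
  rw [sum_congr rfl h1, sum_congr rfl h2, sum_const, sum_const, smul_eq_mul, smul_eq_mul,
    card_univ, card_univ, h.num] at key
  exact (Nat.eq_of_mul_eq_mul_right (by omega) key).symm

/-- the class of a block has `t` elements -/
lemma cardCL (b : W) : (CL I b).card = t := by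
  have key := sum_card_bipartiteAbove_eq_sum_card_bipartiteBelow
    (s := BP I b) (t := univ \ CL I b) (fun (y : V) (c : W) => I y c)
  have h1 : ∀ y ∈ BP I b,
      (bipartiteAbove (fun (y : V) (c : W) => I y c) (univ \ CL I b) y).card = 2 * t := by
    intro y hy
    have hyb := mem_BP.1 hy
    have e : bipartiteAbove (fun (y : V) (c : W) => I y c) (univ \ CL I b) y =
        (PB I y).erase b := by
      ext c
      simp only [bipartiteAbove, mem_filter, mem_erase, mem_sdiff, mem_univ, true_and, mem_PB,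
        mem_CL]
      constructor
      · rintro ⟨h3, h4⟩
        exact ⟨fun h5 => h3 (Or.inl h5.symm), h4⟩
      · rintro ⟨h3, h4⟩
        exact ⟨fun h5 => h3 (h5.eq_of hyb h4).symm, h4⟩
    rw [e, card_erase_of_mem (mem_PB.2 hyb), h.deg y]
    omega
  have h2 : ∀ c ∈ univ \ CL I b,
      (bipartiteBelow (fun (y : V) (c : W) => I y c) (BP I b) c).card = 2 := by
    intro c hc
    have hc' : ¬ Par I b c := by
      have := (mem_sdiff.1 hc).2
      rwa [mem_CL] at this
    have e : bipartiteBelow (fun (y : V) (c : W) => I y c) (BP I b) c = BP I b ∩ BP I c := by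
      ext y
      simp only [bipartiteBelow, mem_filter, mem_inter, mem_BP]
    unfold Par at hc'
    push Not at hc'
    obtain ⟨h3, x, hx, hx'⟩ := hc'
    rw [e, h.bls b c h3 x hx hx']
  rw [sum_congr rfl h1, sum_congr rfl h2, sum_const, sum_const, smul_eq_mul, smul_eq_mul,
    h.siz b, card_sdiff_of_subset (subset_univ _), card_univ, h.cardW] at key
  have h3 : (CL I b).card ≤ t * (2 * t + 2) := by
    rw [← h.cardW, ← card_univ]
    exact card_le_card (subset_univ _)
  have e1 : (2 * t + 1) * (2 * t) = 2 * (t * (2 * t + 2)) - 2 * t := by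
    have : 2 * (t * (2 * t + 2)) = (2 * t + 1) * (2 * t) + 2 * t := by ring
    omega
  have e2 : 2 * t ≤ 2 * (t * (2 * t + 2)) := by nlinarith
  omega

lemma inter_two {b c : W} (hbc : ¬ Par I b c) : (BP I b ∩ BP I c).card = 2 := by
  unfold Par at hbc
  push Not at hbc
  obtain ⟨h3, x, hx, hx'⟩ := hbc
  exact h.bls b c h3 x hx hx'

lemma cl_disj (b : W) : ((CL I b : Finset W) : Set W).PairwiseDisjoint (BP I) := by
  intro c hc d hd hcd
  rw [Function.onFun, disjoint_left]
  intro x hx hx'
  have hc' := mem_CL.1 (mem_coe.1 hc)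
  have hd' := mem_CL.1 (mem_coe.1 hd)
  exact hcd ((h.par _ _ _ hc'.symm hd').eq_of (mem_BP.1 hx) (mem_BP.1 hx'))

lemma compl_MI (b : W) : univ \ MI I b = (CL I b).biUnion (BP I) := by
  ext x
  simp only [mem_sdiff, mem_univ, true_and, mem_MI, mem_biUnion, mem_CL, mem_BP]
  push Not
  rfl

/-- `t` points are missed -/
lemma cardMI (b : W) : (MI I b).card = t := by
  have h1 : (univ \ MI I b).card = t * (2 * t + 1) := by
    rw [h.compl_MI b, card_biUnion (h.cl_disj b), sum_congr rfl fun c _ => h.siz c, sum_const,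
      smul_eq_mul, h.cardCL b]
  rw [card_sdiff_of_subset (subset_univ _), card_univ, h.num] at h1
  have h3 : (MI I b).card ≤ t * (2 * t + 2) := by
    rw [← h.num, ← card_univ]
    exact card_le_card (subset_univ _)
  have e1 : t * (2 * t + 2) = t * (2 * t + 1) + t := by ring
  omega

/-- a block outside the class of `b` has one missed point -/
lemma one_mi {b c : W} (hbc : ¬ Par I b c) : (BP I c ∩ MI I b).card = 1 := by
  have h1 : (BP I c \ MI I b).card = 2 * t := by
    have e : BP I c \ MI I b = (CL I b).biUnion fun d => BP I c ∩ BP I d := by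
      have h2 := h.compl_MI b
      have h3 : BP I c \ MI I b = BP I c ∩ (univ \ MI I b) := by
        ext x
        simp
      rw [h3, h2, inter_biUnion]
    rw [e, card_biUnion]
    · have h4 : ∀ d ∈ CL I b, (BP I c ∩ BP I d).card = 2 := by
        intro d hd
        refine h.inter_two fun h5 => hbc ?_
        exact h.par _ _ _ (mem_CL.1 hd) h5.symm
      rw [sum_congr rfl h4, sum_const, smul_eq_mul, h.cardCL b, mul_comm]
    · intro d hd e he hde
      exact (h.cl_disj b (mem_coe.2 hd) (mem_coe.2 he) hde).mono inter_subset_right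
        inter_subset_right
  have h2 := card_sdiff_add_card_inter (BP I c) (MI I b)
  rw [h1, h.siz c] at h2
  omega

lemma mi_eq {b c : W} (hbc : ¬ Par I b c) {x y : V} (hx : I x c) (hy : I y c) (hx' : x ∈ MI I b)
    (hy' : y ∈ MI I b) : x = y := by
  obtain ⟨z, hz⟩ := card_eq_one.1 (h.one_mi hbc)
  have h1 : x ∈ BP I c ∩ MI I b := mem_inter.2 ⟨mem_BP.2 hx, hx'⟩
  have h2 : y ∈ BP I c ∩ MI I b := mem_inter.2 ⟨mem_BP.2 hy, hy'⟩
  rw [hz, mem_singleton] at h1 h2
  rw [h1, h2]

/-- every point is missed by some class -/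
lemma ex_mi (x : V) : ∃ b, x ∈ MI I b := by
  have h1 : ((PB I x).biUnion fun c => CL I c).card < Fintype.card W := by
    refine lt_of_le_of_lt card_biUnion_le ?_
    rw [sum_congr rfl fun c _ => h.cardCL c, sum_const, smul_eq_mul, h.deg x, h.cardW]
    have := h.t1
    nlinarith
  obtain ⟨b, hb⟩ : ∃ b, b ∉ (PB I x).biUnion fun c => CL I c := by
    by_contra hcon
    push Not at hcon
    rw [eq_univ_of_forall hcon, card_univ] at h1
    exact lt_irrefl _ h1
  refine ⟨b, mem_MI.2 fun c hc hx => hb ?_⟩
  exact mem_biUnion.2 ⟨c, mem_PB.2 hx, mem_CL.2 hc.symm⟩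

/-- the points which are not joined to `x` -/
lemma joined {x : V} {b : W} (hx : x ∈ MI I b) {y : V} (hy : ∀ c, I x c → ¬ I y c) :
    y ∈ MI I b := by
  -- `N` = points not joined to `x`, and `x`
  set N : Finset V := univ \ ((PB I x).biUnion fun c => (BP I c).erase x) with hN
  have key := sum_card_bipartiteAbove_eq_sum_card_bipartiteBelow
    (s := univ \ N) (t := PB I x) (fun (y : V) (c : W) => I y c)
  have h1 : ∀ y ∈ univ \ N,
      (bipartiteAbove (fun (y : V) (c : W) => I y c) (PB I x) y).card = 2 := by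
    intro y hy
    rw [hN, Finset.sdiff_sdiff_eq_self (subset_univ _)] at hy
    obtain ⟨c, hc, hyc⟩ := mem_biUnion.1 hy
    obtain ⟨hyx, hyc⟩ := mem_erase.1 hyc
    have e : bipartiteAbove (fun (y : V) (c : W) => I y c) (PB I x) y = PB I x ∩ PB I y := by
      ext c
      simp only [bipartiteAbove, mem_filter, mem_inter, mem_PB]
    rw [e, h.pts x y (Ne.symm hyx) c (mem_PB.1 hc) (mem_BP.1 hyc)]
  have h2 : ∀ c ∈ PB I x,
      (bipartiteBelow (fun (y : V) (c : W) => I y c) (univ \ N) c).card = 2 * t := by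
    intro c hc
    have e : bipartiteBelow (fun (y : V) (c : W) => I y c) (univ \ N) c = (BP I c).erase x := by
      ext y
      rw [hN, Finset.sdiff_sdiff_eq_self (subset_univ _)]
      simp only [bipartiteBelow, mem_filter, mem_erase, mem_BP, mem_biUnion]
      constructor
      · rintro ⟨⟨d, -, h3, -⟩, h4⟩
        exact ⟨h3, h4⟩
      · rintro ⟨h3, h4⟩
        exact ⟨⟨c, hc, h3, h4⟩, h4⟩
    rw [e, card_erase_of_mem (mem_BP.2 (mem_PB.1 hc)), h.siz c]
    omega
  rw [sum_congr rfl h1, sum_congr rfl h2, sum_const, sum_const, smul_eq_mul, smul_eq_mul,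
    h.deg x, card_sdiff_of_subset (subset_univ _), card_univ, h.num] at key
  have h3 : N.card ≤ t * (2 * t + 2) := by
    rw [← h.num, ← card_univ]
    exact card_le_card (subset_univ _)
  have hNc : N.card = t := by
    have e1 : 2 * (t * (2 * t + 2)) = (2 * t + 1) * (2 * t) + 2 * t := by ring
    omega
  have hsub : MI I b ⊆ N := by
    intro z hz
    rw [hN, mem_sdiff]
    refine ⟨mem_univ _, fun hz' => ?_⟩
    obtain ⟨c, hc, hzc⟩ := mem_biUnion.1 hz'
    obtain ⟨hzx, hzc⟩ := mem_erase.1 hzc
    have hbc : ¬ Par I b c := fun h5 => (mem_MI.1 hx) c h5 (mem_PB.1 hc)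
    exact hzx (h.mi_eq hbc (mem_BP.1 hzc) (mem_PB.1 hc) hz hx)
  have heq : MI I b = N := eq_of_subset_of_card_le hsub (by rw [hNc, h.cardMI b])
  rw [heq, hN, mem_sdiff]
  refine ⟨mem_univ _, fun hy' => ?_⟩
  obtain ⟨c, hc, hyc⟩ := mem_biUnion.1 hy'
  exact hy c (mem_PB.1 hc) (mem_BP.1 (mem_erase.1 hyc).2)

end HS

end Pool.Agent.HSB
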