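import Pool.Agent.HSB.Targets
import Pool.Agent.HSB.Str

set_option autoImplicit false

/-!
# HSB (MP_7e1f1a_co): from coordinates to the isomorphism (T_ISO)
-/

namespace Pool.Agent.HSB

open Finset Classical UQL

universe u v w

namespace ISO_

theorem neg_ne {K : Type w} [Field K] {v : K × K} (h2 : (2 : K) ≠ 0) (hv : v ≠ 0) : v ≠ -v := by
  intro h
  apply hv
  have h1 : v.1 = 0 := by
    have := congrArg Prod.fst h
    simp only [Prod.fst_neg] at this
    have e : 2 * v.1 = 0 := by linear_combination this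
    exact (mul_eq_zero.mp e).resolve_left h2
  have h3 : v.2 = 0 := by
    have := congrArg Prod.snd h
    simp only [Prod.snd_neg] at this
    have e : 2 * v.2 = 0 := by linear_combination this
    exact (mul_eq_zero.mp e).resolve_left h2
  exact Prod.ext h1 h3

/-- every vector is the label of an element up to sign -/
theorem surj_pm {p : ℕ} [Fact p.Prime] (h2 : (2 : ZMod p) ≠ 0) {V : Type u} [Fintype V]
    (vec : V → ZMod p × ZMod p) (h0 : ∀ x, vec x ≠ 0)
    (hinj : ∀ x y, (vec x = vec y ∨ vec x = -vec y) → x = y)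
    (hc : 2 * Fintype.card V + 1 = p ^ 2) (v : ZMod p × ZMod p) (hv : v ≠ 0) :
    ∃ x, vec x = v ∨ vec x = -v := by
  have hA : (univ.image vec).card = Fintype.card V := by
    rw [card_image_of_injective _ (fun x y h => hinj x y (Or.inl h)), card_univ]
  have hB : (univ.image fun x => -vec x).card = Fintype.card V := by
    rw [card_image_of_injective _ (fun x y h => hinj x y (Or.inl (neg_injective h))), card_univ]
  have hd : Disjoint (univ.image vec) (univ.image fun x => -vec x) := by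
    rw [disjoint_left]
    intro z hz hz'
    obtain ⟨x, -, rfl⟩ := mem_image.1 hz
    obtain ⟨y, -, hy⟩ := mem_image.1 hz'
    have hxy := hinj x y (Or.inr hy.symm)
    subst hxy
    exact neg_ne h2 (h0 x) hy.symm
  have hsub : univ.image vec ∪ univ.image (fun x => -vec x) ⊆
      (univ : Finset (ZMod p × ZMod p)).erase 0 := by
    intro z hz
    rw [mem_erase]
    refine ⟨?_, mem_univ _⟩
    rcases mem_union.1 hz with h | h
    · obtain ⟨x, -, rfl⟩ := mem_image.1 h
      exact h0 x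
    · obtain ⟨x, -, rfl⟩ := mem_image.1 h
      exact neg_ne_zero.2 (h0 x)
  have hcard : ((univ : Finset (ZMod p × ZMod p)).erase 0).card ≤
      (univ.image vec ∪ univ.image (fun x => -vec x)).card := by
    rw [card_union_of_disjoint hd, hA, hB, card_erase_of_mem (mem_univ _), card_univ,
      Fintype.card_prod, ZMod.card]
    have : p * p = p ^ 2 := (sq p).symm
    omega
  have heq := eq_of_subset_of_card_le hsub hcard
  have hmem : v ∈ univ.image vec ∪ univ.image (fun x => -vec x) := by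
    rw [heq]
    exact mem_erase.2 ⟨hv, mem_univ _⟩
  rcases mem_union.1 hmem with h | h
  · obtain ⟨x, -, hx⟩ := mem_image.1 h
    exact ⟨x, Or.inl hx⟩
  · obtain ⟨x, -, hx⟩ := mem_image.1 h
    exact ⟨x, Or.inr (by rw [← hx, neg_neg])⟩

/-- the bijection onto the orbits -/
theorem mkE {p : ℕ} [Fact p.Prime] (h2 : (2 : ZMod p) ≠ 0) {V : Type u} [Fintype V]
    (vec : V → ZMod p × ZMod p) (h0 : ∀ x, vec x ≠ 0)
    (hinj : ∀ x y, (vec x = vec y ∨ vec x = -vec y) → x = y)
    (hc : 2 * Fintype.card V + 1 = p ^ 2) {P : Type w} (T : P → P) (φ : ZMod p × ZMod p → P)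
    (φ_neg : ∀ v, v ≠ 0 → T (φ v) = φ (-v))
    (φ_inj : ∀ v v', v ≠ 0 → v' ≠ 0 → φ v = φ v' → v = v')
    (φ_surj : ∀ q, T q ≠ q → ∃ v, v ≠ 0 ∧ φ v = q) :
    ∃ e : V ≃ {s : Set P // ∃ q, T q ≠ q ∧ s = {q, T q}},
      ∀ x, (e x).1 = {φ (vec x), φ (-vec x)} := by
  have hmov : ∀ v, v ≠ 0 → T (φ v) ≠ φ v := by
    intro v hv h
    rw [φ_neg v hv] at h
    exact neg_ne h2 hv (φ_inj _ _ (neg_ne_zero.2 hv) hv h).symm
  let F : V → {s : Set P // ∃ q, T q ≠ q ∧ s = {q, T q}} := fun x =>
    ⟨{φ (vec x), φ (-vec x)}, φ (vec x), hmov _ (h0 x), by rw [φ_neg _ (h0 x)]⟩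
  have hF : Function.Bijective F := by
    constructor
    · intro x y hxy
      have h1 : ({φ (vec x), φ (-vec x)} : Set P) = {φ (vec y), φ (-vec y)} :=
        congrArg Subtype.val hxy
      have h3 : φ (vec x) ∈ ({φ (vec y), φ (-vec y)} : Set P) := by
        rw [← h1]
        exact Or.inl rfl
      rcases h3 with h3 | h3
      · exact hinj x y (Or.inl (φ_inj _ _ (h0 x) (h0 y) h3))
      · exact hinj x y (Or.inr (φ_inj _ _ (h0 x) (neg_ne_zero.2 (h0 y)) h3))
    · rintro ⟨s, q, hq, rfl⟩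
      obtain ⟨v, hv, rfl⟩ := φ_surj q hq
      obtain ⟨x, hx⟩ := surj_pm h2 vec h0 hinj hc v hv
      refine ⟨x, Subtype.ext ?_⟩
      change ({φ (vec x), φ (-vec x)} : Set P) = {φ v, T (φ v)}
      rw [φ_neg v hv]
      rcases hx with hx | hx
      · rw [hx]
      · rw [hx, neg_neg, Set.pair_comm]
  exact ⟨Equiv.ofBijective F hF, fun x => rfl⟩

theorem dt_neg_left {K : Type w} [Field K] (a v : K × K) : dt (-a) v = -dt a v := by
  simp only [dt, Prod.fst_neg, Prod.snd_neg]
  ring

theorem dt_neg_right {K : Type w} [Field K] (a v : K × K) : dt a (-v) = -dt a v := by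
  simp only [dt, Prod.fst_neg, Prod.snd_neg]
  ring

end ISO_

open ISO_ in
/-- T_ISO. -/
theorem p_ISO : T_ISO.{u, v, w} := by
  intro p _ V W _ _ I P L _ τ hp hI μ vec wec hvec hwec hinc
  obtain ⟨t, ht⟩ := (Fact.out : p.Prime).odd_of_ne_two hp
  have H : HS t I := hI.hs ht
  have ht1 := H.t1
  have h2 : (2 : ZMod p) ≠ 0 := by
    intro h
    have h3 : ((2 : ℕ) : ZMod p) = 0 := by exact_mod_cast h
    rw [ZMod.natCast_eq_zero_iff] at h3
    have := Nat.le_of_dvd (by norm_num) h3
    omega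
  have hcV : 2 * Fintype.card V + 1 = p ^ 2 := by
    rw [H.num, ht]
    ring
  have hcW : 2 * Fintype.card W + 1 = p ^ 2 := by
    rw [H.cardW, ht]
    ring
  have hinjV : ∀ x y, (vec x = vec y ∨ vec x = -vec y) → x = y := by
    intro x y hxy
    by_contra hne
    have h1 : ∀ b, I x b ↔ I y b := by
      intro b
      rw [hinc, hinc]
      rcases hxy with h | h
      · rw [h]
      · rw [h, dt_neg_right, neg_eq_iff_eq_neg, neg_inj]
        exact or_comm
    obtain ⟨b, hb⟩ := H.ex x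
    have h3 := H.pts x y hne b hb ((h1 b).1 hb)
    have h4 : PB I x ∩ PB I y = PB I x := by
      ext c
      simp only [mem_inter, mem_PB, ← h1 c, and_self]
    rw [h4, H.deg x] at h3
    omega
  have hinjW : ∀ x y, (wec x = wec y ∨ wec x = -wec y) → x = y := by
    intro b c hbc
    by_contra hne
    have h1 : ∀ x, I x b ↔ I x c := by
      intro x
      rw [hinc, hinc]
      rcases hbc with h | h
      · rw [h]
      · rw [h, dt_neg_left, neg_eq_iff_eq_neg, neg_inj]
        exact or_comm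
    have hpos : 0 < (BP I b).card := by
      rw [H.siz b]
      omega
    obtain ⟨x, hx⟩ := card_pos.1 hpos
    have hx' := mem_BP.1 hx
    have h3 := H.bls b c hne x hx' ((h1 x).1 hx')
    have h4 : BP I b ∩ BP I c = BP I b := by
      ext c
      simp only [mem_inter, mem_BP, ← h1 c, and_self]
    rw [h4, H.siz b] at h3
    omega
  obtain ⟨e, he⟩ := mkE h2 vec hvec hinjV hcV (fun q => τ.pt q) μ.φ μ.φ_neg μ.φ_inj μ.φ_surj
  obtain ⟨f, hf⟩ := mkE h2 wec hwec hinjW hcW (fun q => τ.ln q) μ.ψ μ.ψ_neg μ.ψ_inj μ.ψ_surj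
  refine ⟨e, f, fun x b => ?_⟩
  have hv := hvec x
  have ha := hwec b
  have hv' : -vec x ≠ 0 := neg_ne_zero.2 hv
  have ha' : -wec b ≠ 0 := neg_ne_zero.2 ha
  have hQ : QInc τ (e x) (f b) ↔ ∃ q ∈ ({μ.φ (vec x), μ.φ (-vec x)} : Set P),
      ∃ l ∈ ({μ.ψ (wec b), μ.ψ (-wec b)} : Set L), q ∈ l := by
    unfold QInc
    rw [← he x, ← hf b]
  refine (hinc x b).trans (Iff.trans ?_ hQ.symm)
  constructor
  · rintro (h | h)
    · exact ⟨_, Or.inl rfl, _, Or.inl rfl, (μ.inc _ _ hv ha).2 h⟩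
    · refine ⟨_, Or.inr rfl, _, Or.inl rfl, (μ.inc _ _ hv' ha).2 ?_⟩
      rw [dt_neg_right, h, neg_neg]
  · rintro ⟨q, hq, l, hl, hql⟩
    rcases hq with rfl | rfl <;> rcases hl with rfl | rfl
    · exact Or.inl ((μ.inc _ _ hv ha).1 hql)
    · have := (μ.inc _ _ hv ha').1 hql
      rw [dt_neg_left] at this
      exact Or.inr (by rw [← this, neg_neg])
    · have := (μ.inc _ _ hv' ha).1 hql
      rw [dt_neg_right] at this
      exact Or.inr (by rw [← this, neg_neg])
    · have := (μ.inc _ _ hv' ha').1 hql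
      rw [dt_neg_left, dt_neg_right, neg_neg] at this
      exact Or.inl this

end Pool.Agent.HSB
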