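import Pool.Agent.HSB.Targets

set_option autoImplicit false

/-!
# HSB-TAU: the Desarguesian plane has an involutory homology
-/

namespace Pool.Agent.HSB

open Configuration UQL Projectivization
open scoped LinearAlgebra.Projectivization

universe w

namespace TAU_

variable {K : Type w} [Field K]

/-- change the sign of the last coordinate -/
def dl : (Fin 3 → K) →ₗ[K] (Fin 3 → K) where
  toFun v := ![v 0, v 1, -v 2]
  map_add' v w := by
    funext i
    fin_cases i
    · simp
    · simp
    · simp [add_comm]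
  map_smul' c v := by
    funext i
    fin_cases i
    · simp
    · simp
    · simp

theorem dl_app (v : Fin 3 → K) : dl v = ![v 0, v 1, -v 2] := rfl

theorem dl_dl (v : Fin 3 → K) : dl (dl v) = v := by
  funext i
  fin_cases i
  · simp [dl_app]
  · simp [dl_app]
  · simp [dl_app]

theorem dl_inj : Function.Injective (dl (K := K)) := fun v w h => by
  rw [← dl_dl v, h, dl_dl]

theorem dl_dot (v w : Fin 3 → K) : dl v ⬝ᵥ dl w = v ⬝ᵥ w := by
  simp [dl_app, dotProduct, Fin.sum_univ_three]

/-- the induced map -/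
def pm (p : ℙ K (Fin 3 → K)) : ℙ K (Fin 3 → K) := Projectivization.map dl dl_inj p

theorem pm_mk (v : Fin 3 → K) (hv : v ≠ 0) :
    pm (mk K v hv) = mk K (dl v) (map_zero (dl (K := K)) ▸ dl_inj.ne hv) := rfl

theorem pm_pm (p : ℙ K (Fin 3 → K)) : pm (pm p) = p := by
  induction p with | h v hv =>
  simp only [pm_mk, dl_dl]

theorem pm_mem [DecidableEq K] (p l : ℙ K (Fin 3 → K)) : pm p ∈ pm l ↔ p ∈ l := by
  rw [ofField.mem_iff, ofField.mem_iff]
  induction p with | h v hv =>
  induction l with | h w hw =>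
  rw [pm_mk, pm_mk, orthogonal_mk, orthogonal_mk, dl_dot]

/-- the collineation -/
def tau [DecidableEq K] : Coll (ℙ K (Fin 3 → K)) (ℙ K (Fin 3 → K)) where
  pt := ⟨pm, pm, pm_pm, pm_pm⟩
  ln := ⟨pm, pm, pm_pm, pm_pm⟩
  mem_iff := pm_mem

theorem tau_pt [DecidableEq K] (p : ℙ K (Fin 3 → K)) : (tau (K := K)).pt p = pm p := rfl

theorem cne : (![0, 0, 1] : Fin 3 → K) ≠ 0 := fun h => by
  have := congrFun h 2
  simp at this

theorem mne : (![1, 0, 1] : Fin 3 → K) ≠ 0 := fun h => by
  have := congrFun h 0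
  simp at this

end TAU_

open TAU_ in
theorem p_TAU : T_TAU.{w} := by
  intro K _ _ h2
  refine ⟨tau, fun p => ?_, ⟨mk K ![1, 0, 1] mne, ?_⟩, mk K ![0, 0, 1] cne, mk K ![0, 0, 1] cne,
    fun p hp => ?_, ?_, ?_⟩
  · rw [tau_pt, tau_pt, pm_pm]
  · rw [tau_pt, pm_mk, Ne, mk_eq_mk_iff']
    rintro ⟨a, ha⟩
    have h0 := congrFun ha 0
    have h1 := congrFun ha 2
    simp [dl_app] at h0 h1
    rw [h0] at h1
    apply h2
    linear_combination h1
  · rw [ofField.mem_iff] at hp
    rw [tau_pt]
    induction p with | h v hv =>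
    rw [orthogonal_mk] at hp
    have hv2 : v 2 = 0 := by simpa [dotProduct, Fin.sum_univ_three] using hp
    have e : dl v = v := by
      funext i
      fin_cases i
      · simp [dl_app]
      · simp [dl_app]
      · simp [dl_app, hv2]
    rw [pm_mk]
    simp only [e]
  · rw [ofField.mem_iff, orthogonal_mk]
    simp [dotProduct, Fin.sum_univ_three]
  · rw [tau_pt, pm_mk, mk_eq_mk_iff']
    refine ⟨-1, ?_⟩
    funext i
    fin_cases i
    · simp [dl_app]
    · simp [dl_app]
    · simp [dl_app]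

end Pool.Agent.HSB
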