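import Pool.Agent.HSB.Defs
import Pool.Agent.UQL.Defs

set_option autoImplicit false

/-!
# HSB (MP_7e1f1a_co): targets (helper12)

THEOREM: a homology semibiplane of prime order `p` with an abelian group of automorphisms of order
`p (p - 1) / 2` is isomorphic to PG(2,p)/tau. Landed: Defs, Str, Grp, Dif, Poly, Cor. Two open blocks,
definitions in `HSB/Defs.lean` (`IsHS`, `Par`) and `UQL/Defs.lean` (`Coll`, `IsInvHom`, `QPt`, `QBl`,
`QInc`, `dt`, `Model`). PG(2,K) is Mathlib's `Configuration.ofField` structure on `ℙ K (Fin 3 → K)`.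
-/

namespace Pool.Agent.HSB

open Configuration UQL
open scoped LinearAlgebra.Projectivization

universe u v w

/-- **TAU** (45 min). PG(2,K) has an involutory homology. PROOF. `δ v = ![v 0, v 1, -v 2]`, a linear
equivalence of `Fin 3 → K`; `pt = ln =` the induced permutation of `ℙ K (Fin 3 → K)` (`Projectivization.map`
or `mapEquiv`; `δ (δ v) = v`). Incidence is orthogonality (`Projectivization.orthogonal`, see
`Configuration.ofField`), `δ v ⬝ᵥ δ w = v ⬝ᵥ w`. Axis: the line `[0, 0, 1]` (its points have `v 2 = 0`), centre: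
the point `[0, 0, 1]`, which is fixed and not on the axis. The point `[1, 0, 1]` is moved (`2 ≠ 0`). See
`Pool/Agent/UQL/P_BAS.lean`, `P_ACT.lean` for calculations with these points. -/
def T_TAU : Prop := ∀ (K : Type w) [Field K] [DecidableEq K], (2 : K) ≠ 0 →
  ∃ τ : Coll (ℙ K (Fin 3 → K)) (ℙ K (Fin 3 → K)), τ.IsInvHom

/-- **ISO** (60 min). From coordinates to the isomorphism. PROOF. (a) `vec x = ± vec y` implies that `x` and
`y` are on the same blocks (`dt` is bilinear); a block has at least `3` points, hence every point is on at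
least `3` blocks; simpler: use `HS.deg` of `HSB/Str.lean` (`IsHS.hs` gives `HS t I` with `p = 2 t + 1`):
`(PB I x).card = 2 t + 1 ≥ 3`, while `(PB I x ∩ PB I y).card = 2` for `x ≠ y`. So `x = y`; the same for `wec` with
`HS.siz`. (b) The map `(x, s) ↦ s • vec x`, `s = ± 1`, from `V × Bool` to `{v : K × K // v ≠ 0}` is injective (`2 ≠ 0`) and both
sets have `p ^ 2 - 1` elements (`IsHS.num`; `HS.cardW` for the blocks), so every `v ≠ 0` is `± vec x`. (c) `e x` is the orbit
`{φ (vec x), φ (- vec x)}` of the model `μ` (`μ.φ_neg`), bijective by (a), (b), `μ.φ_inj`, `μ.φ_surj`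
(`Equiv.ofBijective`); the same for `f` with `ψ`. (d) `QInc τ (e x) (f b)` iff `dt (± wec b) (± vec x) = 1`
for some signs (`μ.inc`), iff `dt (wec b) (vec x) = ± 1`. -/
def T_ISO : Prop := ∀ (p : ℕ) [Fact p.Prime] (V : Type u) (W : Type v) [Fintype V] [Fintype W]
  (I : V → W → Prop) (P L : Type w) [Membership P L] (τ : Coll P L), p ≠ 2 → IsHS p I →
  Model (ZMod p) τ → ∀ (vec : V → ZMod p × ZMod p) (wec : W → ZMod p × ZMod p),
  (∀ x, vec x ≠ 0) → (∀ b, wec b ≠ 0) →
  (∀ x b, I x b ↔ dt (wec b) (vec x) = 1 ∨ dt (wec b) (vec x) = -1) →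
  ∃ (e : V ≃ QPt τ) (f : W ≃ QBl τ), ∀ x b, I x b ↔ QInc τ (e x) (f b)

end Pool.Agent.HSB
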